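import Pool.Agent.X290.FM2.Quad

/-!
# Quadratic characters unramified outside `2` and `q`
-/

set_option autoImplicit false

namespace Pool.Agent.X290.FM2

open NumberField Pool.Agent.W569.FM Pool.Agent.W215.FM Pool.Agent.TH831.OT

theorem exists_sqrt_int (n : ℤ) : ∃ s : OO ℚ, s ^ 2 = n := by
  obtain ⟨z, hz⟩ := IsAlgClosed.exists_pow_nat_eq (n : AlgebraicClosure ℚ) (n := 2) (by norm_num)
  refine ⟨⟨z, ?_⟩, RingOfIntegers.ext ?_⟩
  · apply IsIntegral.of_pow (n := 2) (by norm_num)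
    rw [hz]
    exact isIntegral_algebraMap (R := ℤ) (x := n)
  · show z ^ 2 = _
    rw [hz]
    simp

theorem zmod2 (a : Multiplicative (ZMod 2)) (h : a ≠ 1) : a = Multiplicative.ofAdd 1 := by
  revert a; decide

theorem exists_root (F : GF ℚ →* Multiplicative (ZMod 2)) (hF : IsOpen (F.ker : Set (GF ℚ)))
    {g0 : GF ℚ} (hg0 : F g0 ≠ 1) : ∃ (s : OO ℚ) (d : ℤ), s ^ 2 = d ∧ s ≠ 0 ∧ Squarefree d ∧
      (∀ h, F h = 1 → h • s = s) ∧ (∀ h, F h ≠ 1 → h • s = -s) := by
  have : Fact (Nat.Prime 2) := ⟨Nat.prime_two⟩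
  have hz : IsPrimitiveRoot (-1 : OO ℚ) 2 := IsPrimitiveRoot.neg_one 0 (by norm_num)
  obtain ⟨β, hβ0, hβ⟩ := exists_beta hz F hF g0 (by rw [smul_neg, smul_one]) (zmod2 _ hg0)
  have h1 : ∀ h, F h = 1 → h • β = β := by
    intro h hh
    rw [hβ h (by rw [smul_neg, smul_one]), hh, toAdd_one, ZMod.val_zero, pow_zero, one_mul]
  have h2 : ∀ h, F h ≠ 1 → h • β = -β := by
    intro h hh
    rw [hβ h (by rw [smul_neg, smul_one]), zmod2 _ hh, toAdd_ofAdd]
    show (-1 : OO ℚ) ^ 1 * β = -β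
    ring
  obtain ⟨n, hn⟩ := fixed_int (β ^ 2) (fun g => by
    rw [smul_pow']
    by_cases hg : F g = 1
    · rw [h1 g hg]
    · rw [h2 g hg]; ring)
  have hn0 : n ≠ 0 := by
    rintro rfl
    rw [Int.cast_zero] at hn
    exact hβ0 (pow_eq_zero_iff two_ne_zero |>.1 hn)
  obtain ⟨a, k, hk, ha⟩ := Nat.sq_mul_squarefree n.natAbs
  obtain ⟨d, hd, hdk⟩ : ∃ d : ℤ, Squarefree d ∧ (k : ℤ) ^ 2 * d = n := by
    rcases Int.natAbs_eq n with h | h
    · refine ⟨a, ?_, ?_⟩
      · exact Int.squarefree_natCast.2 ha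
      · rw [h, ← hk]; push_cast; ring
    · refine ⟨-a, ?_, ?_⟩
      · rw [← Int.squarefree_natAbs, Int.natAbs_neg, Int.natAbs_natCast]; exact ha
      · rw [h, ← hk]; push_cast; ring
  have hk0 : (k : OO ℚ) ≠ 0 := by
    intro h
    apply hn0
    have : k = 0 := by exact_mod_cast h
    rw [← hdk, this]; simp
  obtain ⟨s, hs⟩ := exists_sqrt_int d
  have h3 : ((k : OO ℚ) * s) ^ 2 = β ^ 2 := by
    rw [mul_pow, hs, hn, ← hdk]; push_cast; ring
  obtain ⟨s', hs', hks⟩ : ∃ s' : OO ℚ, s' ^ 2 = d ∧ (k : OO ℚ) * s' = β := by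
    rcases sq_eq_sq_iff_eq_or_eq_neg.1 h3 with h | h
    · exact ⟨s, hs, h⟩
    · exact ⟨-s, by rw [neg_sq, hs], by rw [mul_neg, h, neg_neg]⟩
  have hs0 : s' ≠ 0 := by
    rintro rfl
    apply hβ0
    rw [← hks, mul_zero]
  have hk' : ∀ g : GF ℚ, g • (k : OO ℚ) = k := fun g => smul_natCast' g k
  refine ⟨s', d, hs', hs0, hd, fun h hh => ?_, fun h hh => ?_⟩
  · apply mul_left_cancel₀ hk0
    rw [← hk' h, ← smul_mul', hk' h, hks, h1 h hh]
  · apply mul_left_cancel₀ hk0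
    rw [← hk' h, ← smul_mul', hk' h, mul_neg, hks, h2 h hh]

theorem nat_sqfree {n q : ℕ} (hq : q.Prime) (hq2 : q ≠ 2) (hn : Squarefree n)
    (h : ∀ l : ℕ, l.Prime → l ∣ n → l = 2 ∨ l = q) : n = 1 ∨ n = 2 ∨ n = q ∨ n = 2 * q := by
  have h1 : n ∣ 2 * q := by
    have h2 : n.primeFactors ⊆ {2, q} := by
      intro l hl
      have := h l (Nat.prime_of_mem_primeFactors hl) (Nat.dvd_of_mem_primeFactors hl)
      simpa using this
    rw [← Nat.prod_primeFactors_of_squarefree hn, ← Finset.prod_pair (Ne.symm hq2)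
      (f := fun l : ℕ => l)]
    exact Finset.prod_dvd_prod_of_subset _ _ _ h2
  obtain ⟨a, b, ha, hb, hab⟩ := (Nat.dvd_mul).1 h1
  rcases (Nat.dvd_prime Nat.prime_two).1 ha with h2 | h2 <;>
    rcases (Nat.dvd_prime hq).1 hb with h3 | h3 <;> subst h2 <;> subst h3 <;> omega

section
variable {q : ℕ} (hq : q.Prime) (hq8 : q % 8 = 3 ∨ q % 8 = 5)
  (F : GF ℚ →* Multiplicative (ZMod 2)) (hF : IsOpen (F.ker : Set (GF ℚ)))
  (hur : ∀ g ∈ UrSet 2 {q}, F g = 1)
include hq hq8 hF hur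

theorem exists_root' {g0 : GF ℚ} (hg0 : F g0 ≠ 1) : ∃ (s : OO ℚ) (d : ℤ), s ^ 2 = d ∧ s ≠ 0 ∧
      Squarefree d ∧ (∀ h, F h = 1 → h • s = s) ∧ (∀ h, F h ≠ 1 → h • s = -s) ∧
      (d = -1 ∨ d = 2 ∨ d = -2 ∨ d = q ∨ d = -q ∨ d = 2 * q ∨ d = -(2 * q)) := by
  obtain ⟨s, d, hs, hs0, hd, h1, h2⟩ := exists_root F hF hg0
  refine ⟨s, d, hs, hs0, hd, h1, h2, ?_⟩
  have hd1 : d ≠ 1 := by
    rintro rfl
    rw [Int.cast_one] at hs
    have h3 := h2 g0 hg0
    have hs' : s ^ 2 = 1 ^ 2 := by rw [hs, one_pow]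
    rcases sq_eq_sq_iff_eq_or_eq_neg.1 hs' with h | h
    · rw [h, smul_one] at h3
      have : (2 : OO ℚ) = 0 := by linear_combination h3
      exact two_ne_zero this
    · rw [h, smul_neg, smul_one] at h3
      have : (2 : OO ℚ) = 0 := by linear_combination -h3
      exact two_ne_zero this
  have h4 : ∀ l : ℕ, l.Prime → l ∣ d.natAbs → l = 2 ∨ l = q := by
    intro l hl hld
    by_contra hcon
    push Not at hcon
    obtain ⟨Q, hQ, hlQ, -⟩ := (Pool.Agent.W571.FM.main l hl).1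
    obtain ⟨τ, hτ, hτs⟩ := ram hs hs0 hd (h2 g0 hg0) (Int.natCast_dvd.2 hld) Q hQ.isPrime hlQ
    have hne : ∀ r : ℕ, r.Prime → l ≠ r → (r : OO ℚ) ∉ Q := by
      intro r hr hlr hrQ
      have h5 : (l : ℤ) ∣ (r : ℤ) := int_mem hQ.isPrime hl hlQ (by exact_mod_cast hrQ)
      exact hlr ((Nat.prime_dvd_prime_iff_eq hl hr).1 (by exact_mod_cast h5))
    have h6 : F τ = 1 := hur τ ⟨Q, hQ, by
      intro r hr
      rw [Finset.mem_singleton] at hr
      rw [hr]
      exact hne q hq hcon.2, hne 2 Nat.prime_two hcon.1, hτ⟩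
    have h7 := h1 τ h6
    rw [hτs] at h7
    apply hs0
    have h8 : (2 : OO ℚ) * s = 0 := by linear_combination -h7
    exact (mul_eq_zero.1 h8).resolve_left two_ne_zero
  have h5 := nat_sqfree hq (by omega) (Int.squarefree_natAbs.2 hd) h4
  omega

/-- the decomposition group at `2` -/
theorem trivA (P : Ideal (OO ℚ)) (hP : P.IsMaximal) (hP2 : (2 : OO ℚ) ∈ P)
    (hD : ∀ g ∈ DSet P, F g = 1) (g : GF ℚ) : F g = 1 := by
  by_contra hg
  obtain ⟨s, d, hs, hs0, hd, h1, h2, h3⟩ := exists_root' hq hq8 F hF hur hg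
  have h4 := split hs hs0 hd (h2 g hg) P hP hP2 fun h hh => h1 h (hD h hh)
  omega

/-- the decomposition group at `q`, even case -/
theorem trivB (P : Ideal (OO ℚ)) (hP : P.IsMaximal) (hqP : (q : OO ℚ) ∈ P) {σ τ : GF ℚ}
    (hσ : FrobAt q P σ) (hτ : InInertia P τ) {r : OO ℚ} (hr : r ^ 2 = (q : ℤ)) (hτr : τ • r = -r)
    {c : GF ℚ} (φ : AlgebraicClosure ℚ →+* ℂ)
    (hc : ∀ x, φ (c x) = (starRingEnd ℂ) (φ x)) (hFσ : F σ = 1) (hFτ : F τ = 1) (hFc : F c = 1)
    (g : GF ℚ) : F g = 1 := by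
  by_contra hg
  obtain ⟨s, d, hs, hs0, hd, h1, h2, h3⟩ := exists_root' hq hq8 F hF hur hg
  -- `d` is positive
  have hdpos : 0 ≤ d := by
    have h4 := congrArg (fun z : OO ℚ => (z : AlgebraicClosure ℚ)) (h1 c hFc)
    have h5 := hc (s : AlgebraicClosure ℚ)
    have h6 : c (s : AlgebraicClosure ℚ) = s := h4
    rw [h6] at h5
    obtain ⟨x, hx⟩ := Complex.conj_eq_iff_real.1 h5.symm
    have h7 := congrArg (fun z : OO ℚ => φ (z : AlgebraicClosure ℚ)) hs
    have h8 : φ (s : AlgebraicClosure ℚ) ^ 2 = (d : ℂ) := by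
      simpa using h7
    rw [hx] at h8
    have h9 : x ^ 2 = (d : ℝ) := by exact_mod_cast h8
    have h10 : (0 : ℝ) ≤ d := by rw [← h9]; positivity
    exact_mod_cast h10
  have hq2 : q ≠ 2 := by omega
  have hqp := hq.pos
  have hfq : Fact q.Prime := ⟨hq⟩
  have two_notin : (2 : OO ℚ) ∉ P := by
    intro h
    have h5 : (q : ℤ) ∣ (2 : ℤ) := int_mem hP.isPrime hq hqP (by exact_mod_cast h)
    have := Int.le_of_dvd (by norm_num) h5
    have := hq.two_le
    omega
  -- the square root of two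
  obtain ⟨t, ht⟩ := exists_sqrt_int 2
  have ht' : t ^ 2 = 2 := by rw [ht]; norm_num
  have ht0 : t ≠ 0 := by
    rintro rfl
    norm_num at ht'
  have htP : (2 : OO ℚ) * t ∉ P := by
    intro h
    rcases hP.isPrime.mem_or_mem h with h | h
    · exact two_notin h
    · apply two_notin
      rw [← ht']
      exact P.pow_mem_of_mem h 2 (by norm_num)
  have hτt : τ • t = t := by
    rcases smul_eq_or ht τ with h | h
    · exact h
    · exfalso
      have := hτ t
      rw [h] at this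
      apply htP
      have h5 : (2 : OO ℚ) * t = -(-t - t) := by ring
      rw [h5]
      exact P.neg_mem this
  have hσt : σ • t = -t := by
    rcases smul_eq_or ht σ with h | h
    · exfalso
      have h5 := hσ t
      rw [h] at h5
      have h6 : (2 : ZMod q) ≠ 0 := by
        have : ((2 : ℕ) : ZMod q) ≠ 0 := by
          rw [Ne, ZMod.natCast_eq_zero_iff]
          intro h
          have := Nat.le_of_dvd (by norm_num) h
          have := hq.two_le
          omega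
        exact_mod_cast this
      have h7 : (2 : ZMod q) ^ (q / 2) = -1 := by
        rcases ZMod.pow_div_two_eq_neg_one_or_one q h6 with h | h
        · exfalso
          rw [← ZMod.euler_criterion q h6, ZMod.exists_sq_eq_two_iff hq2] at h
          omega
        · exact h
      have h8 : (q : ℤ) ∣ 2 ^ (q / 2) + 1 := by
        rw [← ZMod.intCast_zmod_eq_zero_iff_dvd]
        push_cast
        rw [h7]
        ring
      have h9 : (2 : OO ℚ) ^ (q / 2) + 1 ∈ P := by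
        obtain ⟨e, he⟩ := h8
        have : (2 : OO ℚ) ^ (q / 2) + 1 = (q : OO ℚ) * e := by
          exact_mod_cast congrArg (Int.cast : ℤ → OO ℚ) he
        rw [this]
        exact P.mul_mem_right _ hqP
      have h10 : t ^ q = 2 ^ (q / 2) * t := by
        have h11 : q = 2 * (q / 2) + 1 := by omega
        conv_lhs => rw [h11, pow_succ, pow_mul, ht']
      apply htP
      have h12 : (2 : OO ℚ) * t = (t - t ^ q) + (2 ^ (q / 2) + 1) * t := by
        rw [h10]; ring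
      rw [h12]
      exact P.add_mem h5 (P.mul_mem_right _ h9)
    · exact h
  have hr0 : r ≠ 0 := by
    rintro rfl
    have h5 : ((q : ℤ) : OO ℚ) = 0 := by rw [← hr]; ring
    have h6 : (q : ℤ) = 0 := by exact_mod_cast h5
    omega
  have hcon : ∀ (ν : GF ℚ) (x : OO ℚ), x ≠ 0 → F ν = 1 → ν • x = -x → s ^ 2 = x ^ 2 → False := by
    intro ν x hx0 hFν hνx hsx
    have h5 := h1 ν hFν
    rcases sq_eq_sq_iff_eq_or_eq_neg.1 hsx with h | h
    · rw [h, hνx] at h5
      apply hx0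
      have h8 : (2 : OO ℚ) * x = 0 := by linear_combination -h5
      exact (mul_eq_zero.1 h8).resolve_left two_ne_zero
    · rw [h, smul_neg, hνx] at h5
      apply hx0
      have h8 : (2 : OO ℚ) * x = 0 := by linear_combination h5
      exact (mul_eq_zero.1 h8).resolve_left two_ne_zero
  rcases h3 with h | h | h | h | h | h | h
  · omega
  · exact hcon σ t ht0 hFσ hσt (by rw [hs, ht, h])
  · omega
  · exact hcon τ r hr0 hFτ hτr (by rw [hs, hr, h])
  · omega
  · refine hcon τ (t * r) (mul_ne_zero ht0 hr0) hFτ (by rw [smul_mul', hτt, hτr, mul_neg]) ?_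
    rw [hs, mul_pow, ht, hr, h]
    push_cast
    ring
  · omega

end

end Pool.Agent.X290.FM2
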