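import Pool.Agent.X290.FM2.Pro

/-!
# The dichotomy
-/

set_option autoImplicit false

namespace Pool.Agent.X290.FM2

open Matrix IsLocalRing Pool.Agent.TH831.OT

section
variable {L : Type} [Field L]

theorem ext_basis {X Y : Matrix (Fin 2) (Fin 2) L} {v w : Fin 2 → L} (h : wed w v ≠ 0)
    (h1 : X *ᵥ v = Y *ᵥ v) (h2 : X *ᵥ w = Y *ᵥ w) : X = Y := by
  have h0 : w 0 * v 1 - w 1 * v 0 ≠ 0 := h
  have e : ∀ i, X i 0 = Y i 0 ∧ X i 1 = Y i 1 := by
    intro i
    have a1 := congrFun h1 i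
    have a2 := congrFun h2 i
    simp only [Matrix.mulVec, dotProduct, Fin.sum_univ_two] at a1 a2
    constructor
    · apply mul_right_cancel₀ h0
      linear_combination v 1 * a2 - w 1 * a1
    · apply mul_right_cancel₀ h0
      linear_combination -(v 0 * a2 - w 0 * a1)
  ext i j
  fin_cases j
  · exact (e i).1
  · exact (e i).2

theorem exists_coord {v w : Fin 2 → L} (h : wed w v ≠ 0) (u : Fin 2 → L) :
    ∃ x y : L, u = x • v + y • w := by
  have h0 : w 0 * v 1 - w 1 * v 0 ≠ 0 := h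
  refine ⟨(w 0 * u 1 - w 1 * u 0) / (w 0 * v 1 - w 1 * v 0),
    (u 0 * v 1 - u 1 * v 0) / (w 0 * v 1 - w 1 * v 0), ?_⟩
  ext i
  fin_cases i
  · show u 0 = _ * v 0 + _ * w 0
    field_simp
    ring
  · show u 1 = _ * v 1 + _ * w 1
    field_simp
    ring

theorem coord_inj {v w : Fin 2 → L} (h : wed w v ≠ 0) {x y x' y' : L}
    (e : x • v + y • w = x' • v + y' • w) : x = x' ∧ y = y' := by
  have h0 : w 0 * v 1 - w 1 * v 0 ≠ 0 := h
  have e0 : x * v 0 + y * w 0 = x' * v 0 + y' * w 0 := congrFun e 0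
  have e1 : x * v 1 + y * w 1 = x' * v 1 + y' * w 1 := congrFun e 1
  constructor
  · apply mul_right_cancel₀ h0
    linear_combination w 0 * e1 - w 1 * e0
  · apply mul_right_cancel₀ h0
    linear_combination v 1 * e0 - v 0 * e1

theorem exists_eig [IsAlgClosed L] (M : Matrix (Fin 2) (Fin 2) L) :
    ∃ (v : Fin 2 → L) (c : L), v ≠ 0 ∧ M *ᵥ v = c • v := by
  obtain ⟨c, hc⟩ := IsAlgClosed.exists_root M.charpoly (by
    rw [Matrix.charpoly_degree_eq_dim]; simp)
  have h1 : (Matrix.scalar (Fin 2) c - M).det = 0 := by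
    rw [← Matrix.eval_charpoly]
    exact hc
  obtain ⟨v, hv, h2⟩ := Matrix.exists_mulVec_eq_zero_iff.2 h1
  refine ⟨v, c, hv, ?_⟩
  rw [Matrix.sub_mulVec, sub_eq_zero] at h2
  rw [← h2]
  ext i
  simp [Matrix.scalar_apply, Matrix.mulVec_diagonal]

/-- the core computation -/
theorem core2 {S S' M : Matrix (Fin 2) (Fin 2) L} (hS : S' * S = 1) {M' : Matrix (Fin 2) (Fin 2) L}
    (hM : M' * M = 1) {c : L} {l : ℕ} (hrel : S * M = c • (M ^ l * S))
    {v : Fin 2 → L} (hv : v ≠ 0) {lam : L} (hMv : M *ᵥ v = lam • v)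
    (hsc : ∀ a : L, M ≠ a • 1) (hSv : wed (S *ᵥ v) v ≠ 0) :
    (∃ a : L, S ^ 2 = a • 1) ∧ ∃ a : L, M ^ (l + 1) = a • 1 := by
  have hlam : lam ≠ 0 := by
    rintro rfl
    apply hv
    have : M' *ᵥ (M *ᵥ v) = v := by rw [Matrix.mulVec_mulVec, hM, Matrix.one_mulVec]
    rw [← this, hMv, zero_smul, Matrix.mulVec_zero]
  have hc : c ≠ 0 := by
    rintro rfl
    rw [zero_smul] at hrel
    have h1 : M = 0 := by
      have : S' * (S * M) = M := by rw [← mul_assoc, hS, one_mul]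
      rw [← this, hrel, mul_zero]
    exact hsc 0 (by rw [h1, zero_smul])
  have hpowv : ∀ n : ℕ, M ^ n *ᵥ v = lam ^ n • v := by
    intro n
    induction n with
    | zero => simp
    | succ n ih =>
      rw [pow_succ, ← Matrix.mulVec_mulVec, hMv, Matrix.mulVec_smul, ih, smul_smul, pow_succ,
        mul_comm]
  set w := S *ᵥ v with hw
  -- the matrix `M ^ l` on `w`
  have h1 : c • (M ^ l *ᵥ w) = lam • w := by
    have := congrArg (fun X => X *ᵥ v) hrel
    simp only [Matrix.smul_mulVec, ← Matrix.mulVec_mulVec, hMv, Matrix.mulVec_smul] at this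
    exact this.symm
  set mu := lam / c with hmu
  have hcmu : c * mu = lam := by rw [hmu]; field_simp
  have h2 : M ^ l *ᵥ w = mu • w := by
    have : M ^ l *ᵥ w = c⁻¹ • (c • (M ^ l *ᵥ w)) := by rw [smul_smul, inv_mul_cancel₀ hc, one_smul]
    rw [this, h1, smul_smul, hmu]
    congr 1
    field_simp
  obtain ⟨x, y, hxy⟩ := exists_coord hSv (M *ᵥ w)
  have h3 : x * lam ^ l = x * mu := by
    have e1 : M ^ l *ᵥ (M *ᵥ w) = M *ᵥ (M ^ l *ᵥ w) := by
      have e2 : M ^ l * M = M * M ^ l := by rw [← pow_succ, ← pow_succ']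
      have e3 := congrArg (fun X => X *ᵥ w) e2
      simp only [← Matrix.mulVec_mulVec] at e3
      exact e3
    rw [h2, Matrix.mulVec_smul, hxy, Matrix.mulVec_add, Matrix.mulVec_smul, Matrix.mulVec_smul,
      hpowv, h2, smul_add, smul_smul, smul_smul, smul_smul, smul_smul] at e1
    have := (coord_inj hSv e1).1
    rw [this]; ring
  have hne : lam ^ l ≠ mu := by
    intro he
    have h4 : M ^ l = mu • 1 := by
      refine ext_basis hSv ?_ ?_
      · rw [hpowv, he, Matrix.smul_mulVec, Matrix.one_mulVec]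
      · rw [h2, Matrix.smul_mulVec, Matrix.one_mulVec]
    apply hsc (c * mu)
    rw [h4, Matrix.smul_mul, Matrix.one_mul, smul_smul] at hrel
    have : S' * (S * M) = M := by rw [← mul_assoc, hS, one_mul]
    rw [← this, hrel, Matrix.mul_smul, hS]
  have hx : x = 0 := by
    by_contra hx
    exact hne (mul_left_cancel₀ hx h3)
  have hMw : M *ᵥ w = y • w := by rw [hxy, hx, zero_smul, zero_add]
  have hpoww : ∀ n : ℕ, M ^ n *ᵥ w = y ^ n • w := by
    intro n
    induction n with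
    | zero => simp
    | succ n ih =>
      rw [pow_succ, ← Matrix.mulVec_mulVec, hMw, Matrix.mulVec_smul, ih, smul_smul, pow_succ,
        mul_comm]
  have hy : y ≠ lam := by
    intro hy
    apply hsc lam
    refine ext_basis hSv ?_ ?_
    · rw [hMv, Matrix.smul_mulVec, Matrix.one_mulVec]
    · rw [hMw, hy, Matrix.smul_mulVec, Matrix.one_mulVec]
  have hw0 : w ≠ 0 := by
    intro h
    apply hSv
    rw [h]
    show (0 : L) * v 1 - 0 * v 0 = 0
    ring
  have hymu : y ^ l = mu := by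
    have e1 := (hpoww l).symm.trans h2
    exact smul_left_injective _ hw0 e1
  obtain ⟨a, b, hab⟩ := exists_coord hSv (S *ᵥ w)
  have h5 : c • (M ^ l *ᵥ (S *ᵥ w)) = y • (S *ᵥ w) := by
    have := congrArg (fun X => X *ᵥ w) hrel
    simp only [Matrix.smul_mulVec, ← Matrix.mulVec_mulVec, hMw, Matrix.mulVec_smul] at this
    exact this.symm
  rw [hab, Matrix.mulVec_add, Matrix.mulVec_smul, Matrix.mulVec_smul, hpowv, h2, smul_add, smul_add,
    smul_smul, smul_smul, smul_smul, smul_smul, smul_smul, smul_smul] at h5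
  obtain ⟨h6, h7⟩ := coord_inj hSv h5
  have hb : b = 0 := by
    have e1 : b * (lam - y) = 0 := by rw [← hcmu]; linear_combination h7
    rcases mul_eq_zero.1 e1 with e | e
    · exact e
    · exact absurd (sub_eq_zero.1 e).symm hy
  have hSw : S *ᵥ w = a • v := by rw [hab, hb, zero_smul, add_zero]
  have ha : a ≠ 0 := by
    rintro rfl
    apply hw0
    have : S' *ᵥ (S *ᵥ w) = w := by rw [Matrix.mulVec_mulVec, hS, Matrix.one_mulVec]
    rw [← this, hSw, zero_smul, Matrix.mulVec_zero]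
  have hcy : c * lam ^ l = y := by
    apply mul_left_cancel₀ ha
    linear_combination h6
  refine ⟨⟨a, ?_⟩, ⟨y ^ (l + 1), ?_⟩⟩
  · refine ext_basis hSv ?_ ?_
    · rw [pow_two, ← Matrix.mulVec_mulVec, ← hw, hSw, Matrix.smul_mulVec, Matrix.one_mulVec]
    · rw [pow_two, ← Matrix.mulVec_mulVec, hSw, Matrix.mulVec_smul, ← hw, Matrix.smul_mulVec,
        Matrix.one_mulVec]
  · refine ext_basis hSv ?_ ?_
    · rw [hpowv, Matrix.smul_mulVec, Matrix.one_mulVec]
      congr 1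
      apply mul_left_cancel₀ hc
      rw [pow_succ, pow_succ, hymu, ← mul_assoc, hcy, ← mul_assoc, hcmu, mul_comm]
    · rw [hpoww, Matrix.smul_mulVec, Matrix.one_mulVec]

end

section
variable {A : Type} [CommRing A] [IsDomain A] [IsLocalRing A] [IsNoetherianRing A]
  {G : Type} [Group G] (ρ : G →* GL (Fin 2) A)
  (L : Type) [Field L] [Algebra A L] [FaithfulSMul A L]

/-- the matrix of `ρ g` over `L` -/
def ML (g : G) : Matrix (Fin 2) (Fin 2) L :=
  (ρ g : Matrix (Fin 2) (Fin 2) A).map (algebraMap A L)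

omit [IsDomain A] [IsLocalRing A] [IsNoetherianRing A] [FaithfulSMul A L] in
theorem ML_mul (g h : G) : ML ρ L (g * h) = ML ρ L g * ML ρ L h := by
  unfold ML
  rw [map_mul, GeneralLinearGroup.coe_mul, Matrix.map_mul]

omit [IsDomain A] [IsLocalRing A] [IsNoetherianRing A] [FaithfulSMul A L] in
theorem ML_one : ML ρ L 1 = 1 := by
  unfold ML
  rw [map_one, Units.val_one]
  exact Matrix.map_one _ (map_zero _) (map_one _)

omit [IsDomain A] [IsLocalRing A] [IsNoetherianRing A] [FaithfulSMul A L] in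
theorem ML_pow (g : G) (n : ℕ) : ML ρ L (g ^ n) = ML ρ L g ^ n := by
  induction n with
  | zero => rw [pow_zero, pow_zero, ML_one]
  | succ n ih => rw [pow_succ, pow_succ, ML_mul, ih]

omit [IsDomain A] [IsLocalRing A] [IsNoetherianRing A] [FaithfulSMul A L] in
theorem ML_inv (g : G) : ML ρ L g⁻¹ * ML ρ L g = 1 := by
  rw [← ML_mul, inv_mul_cancel, ML_one]

/-- the line of `v` is preserved by `g` -/
def Pres (v : Fin 2 → L) (g : G) : Prop := ∃ c : L, ML ρ L g *ᵥ v = c • v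

variable {ρ} {L}

omit [IsDomain A] [IsLocalRing A] [IsNoetherianRing A] [FaithfulSMul A L] in
theorem pres_closure {v : Fin 2 → L} (hv : v ≠ 0) {T : Set G} (hT : ∀ t ∈ T, Pres ρ L v t) :
    ∀ g ∈ Subgroup.closure T, Pres ρ L v g := by
  intro g hg
  induction hg using Subgroup.closure_induction with
  | mem x hx => exact hT x hx
  | one => exact ⟨1, by rw [ML_one, Matrix.one_mulVec, one_smul]⟩
  | mul x y _ _ hx hy =>
    obtain ⟨a, ha⟩ := hx
    obtain ⟨b, hb⟩ := hy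
    exact ⟨b * a, by rw [ML_mul, ← Matrix.mulVec_mulVec, hb, Matrix.mulVec_smul, ha, smul_smul]⟩
  | inv x _ hx =>
    obtain ⟨a, ha⟩ := hx
    have h1 : ML ρ L x⁻¹ *ᵥ (ML ρ L x *ᵥ v) = v := by
      rw [Matrix.mulVec_mulVec, ML_inv, Matrix.one_mulVec]
    have ha0 : a ≠ 0 := by
      rintro rfl
      apply hv
      rw [← h1, ha, zero_smul, Matrix.mulVec_zero]
    refine ⟨a⁻¹, ?_⟩
    rw [ha, Matrix.mulVec_smul] at h1
    conv_rhs => rw [← h1]
    rw [smul_smul, inv_mul_cancel₀ ha0, one_smul]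

omit [IsDomain A] [FaithfulSMul A L] in
/-- a limit of elements preserving a line -/
theorem pres_limit {v : Fin 2 → L} (hv : v ≠ 0) {g : G}
    (h : ∀ N : ℕ, ∃ w : G, Pres ρ L v w ∧ w⁻¹ * g ∈ NN ρ (maximalIdeal A ^ N)) : Pres ρ L v g := by
  let T : Submodule A L := Submodule.span A {v 0 * v 0, v 0 * v 1, v 1 * v 1}
  have hTfg : Module.Finite A T := by
    rw [Module.Finite.iff_fg]
    exact Submodule.fg_span (by simp)
  have hT0 : v 0 * v 0 ∈ T := Submodule.subset_span (by simp)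
  have hT1 : v 0 * v 1 ∈ T := Submodule.subset_span (by simp)
  have hT2 : v 1 * v 1 ∈ T := Submodule.subset_span (by simp)
  have hex : ∀ X : Matrix (Fin 2) (Fin 2) A, wed (X.map (algebraMap A L) *ᵥ v) v =
      X 0 1 • (v 1 * v 1) + (X 0 0 - X 1 1) • (v 0 * v 1) - X 1 0 • (v 0 * v 0) := by
    intro X
    simp only [wed, Matrix.mulVec, dotProduct, Fin.sum_univ_two, Matrix.map_apply, Algebra.smul_def,
      map_sub]
    ring
  have hmem : ∀ N : ℕ, wed (ML ρ L g *ᵥ v) v ∈ maximalIdeal A ^ N • T := by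
    intro N
    obtain ⟨w, ⟨c, hc⟩, hw⟩ := h N
    set n := w⁻¹ * g with hn
    have hgn : g = w * n := by rw [hn]; group
    rw [mem_NN] at hw
    set X : Matrix (Fin 2) (Fin 2) A := (ρ n : Matrix (Fin 2) (Fin 2) A) with hX
    set W : Matrix (Fin 2) (Fin 2) A := (ρ w : Matrix (Fin 2) (Fin 2) A) with hW
    have h1 : (ρ g : Matrix (Fin 2) (Fin 2) A) = X 0 0 • W + W * (X - X 0 0 • 1) := by
      rw [hgn, map_mul, GeneralLinearGroup.coe_mul, ← hX, ← hW, mul_sub, Matrix.mul_smul,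
        Matrix.mul_one]
      abel
    set Y := W * (X - X 0 0 • 1) with hY
    have hZ : ∀ i j, (X - X 0 0 • (1 : Matrix (Fin 2) (Fin 2) A)) i j ∈ maximalIdeal A ^ N := by
      intro i j
      fin_cases i <;> fin_cases j
      · simp
      · simpa using hw.1
      · simpa using hw.2.1
      · have : (X - X 0 0 • (1 : Matrix (Fin 2) (Fin 2) A)) 1 1 = -(X 0 0 - X 1 1) := by simp
        show (X - X 0 0 • (1 : Matrix (Fin 2) (Fin 2) A)) 1 1 ∈ _
        rw [this]
        exact Ideal.neg_mem_iff _ |>.2 hw.2.2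
    have hYm : ∀ i j, Y i j ∈ maximalIdeal A ^ N := by
      intro i j
      rw [hY, Matrix.mul_apply, Fin.sum_univ_two]
      exact Ideal.add_mem _ (Ideal.mul_mem_left _ _ (hZ _ _)) (Ideal.mul_mem_left _ _ (hZ _ _))
    have h2 : wed (ML ρ L g *ᵥ v) v = wed (Y.map (algebraMap A L) *ᵥ v) v := by
      have e1 : ML ρ L g = (algebraMap A L (X 0 0)) • ML ρ L w + Y.map (algebraMap A L) := by
        unfold ML
        rw [h1]
        ext i j
        simp [Matrix.map_apply, Matrix.add_apply, Matrix.smul_apply, hW]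
        exact (Algebra.smul_def _ _).symm
      rw [e1, Matrix.add_mulVec, Matrix.smul_mulVec, hc, smul_smul, wed_add_left, wed_smul_left,
        wed_self, mul_zero, zero_add]
    rw [h2, hex]
    refine Submodule.sub_mem _ (Submodule.add_mem _ ?_ ?_) ?_
    · exact Submodule.smul_mem_smul (hYm _ _) hT2
    · exact Submodule.smul_mem_smul (Ideal.sub_mem _ (hYm _ _) (hYm _ _)) hT1
    · exact Submodule.smul_mem_smul (hYm _ _) hT0
  have hx : wed (ML ρ L g *ᵥ v) v = 0 := by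
    have hxT : wed (ML ρ L g *ᵥ v) v ∈ T := by
      have := hmem 0
      rwa [pow_zero, Ideal.one_eq_top, Submodule.top_smul] at this
    have hbot := Ideal.iInf_pow_smul_eq_bot_of_isLocalRing (R := A) (M := T) (maximalIdeal A)
      (Ideal.IsPrime.ne_top inferInstance)
    have h3 : (⟨_, hxT⟩ : T) ∈ (⊥ : Submodule A T) := by
      rw [← hbot, Submodule.mem_iInf]
      intro N
      rw [Submodule.mem_smul_top_iff]
      exact hmem N
    exact congrArg Subtype.val ((Submodule.mem_bot A).1 h3)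
  exact eig_of_wed hv hx

omit [IsDomain A] [FaithfulSMul A L] in
/-- a line preserved by generators is preserved by everything -/
theorem pres_gen {v : Fin 2 → L} (hv : v ≠ 0) {T : Set G}
    (hgen : ∀ N, Subgroup.closure (QuotientGroup.mk' (NN ρ (maximalIdeal A ^ N)) '' T) = ⊤)
    (hT : ∀ t ∈ T, Pres ρ L v t) (g : G) : Pres ρ L v g := by
  apply pres_limit hv
  intro N
  have h1 : QuotientGroup.mk' (NN ρ (maximalIdeal A ^ N)) g ∈
      (Subgroup.closure T).map (QuotientGroup.mk' (NN ρ (maximalIdeal A ^ N))) := by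
    rw [MonoidHom.map_closure, hgen N]
    trivial
  obtain ⟨w, hw, hwg⟩ := h1
  exact ⟨w, pres_closure hv hT w hw, QuotientGroup.eq.1 hwg⟩

omit [IsDomain A] [IsLocalRing A] [IsNoetherianRing A] in
/-- from scalar over `L` to scalar -/
theorem sc_of_ML {g : G} (h : ∃ a : L, ML ρ L g = a • 1) (I : Ideal A) : g ∈ NN ρ I := by
  obtain ⟨a, ha⟩ := h
  have hinj : Function.Injective (algebraMap A L) := FaithfulSMul.algebraMap_injective A L
  have e : ∀ i j, algebraMap A L ((ρ g : Matrix (Fin 2) (Fin 2) A) i j) =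
      a * (1 : Matrix (Fin 2) (Fin 2) L) i j := by
    intro i j
    have := congrFun (congrFun ha i) j
    simpa [ML] using this
  rw [mem_NN]
  have h1 : (ρ g : Matrix (Fin 2) (Fin 2) A) 0 1 = 0 := hinj (by rw [e, map_zero]; simp)
  have h2 : (ρ g : Matrix (Fin 2) (Fin 2) A) 1 0 = 0 := hinj (by rw [e, map_zero]; simp)
  have h3 : (ρ g : Matrix (Fin 2) (Fin 2) A) 0 0 = (ρ g : Matrix (Fin 2) (Fin 2) A) 1 1 :=
    hinj (by rw [e, e]; simp)
  refine ⟨?_, ?_, ?_⟩
  · rw [h1]; exact I.zero_mem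
  · rw [h2]; exact I.zero_mem
  · rw [h3, sub_self]; exact I.zero_mem

omit [IsDomain A] [FaithfulSMul A L] in
theorem ML_of_NN {g : G} (h : ∀ N, g ∈ NN ρ (maximalIdeal A ^ N)) : ∃ a : L, ML ρ L g = a • 1 := by
  refine ⟨algebraMap A L ((ρ g : Matrix (Fin 2) (Fin 2) A) 0 0), ?_⟩
  unfold ML
  rw [scalar_of_NN h]
  ext i j
  by_cases hij : i = j
  · subst hij; simp
  · simp [hij]

omit [IsDomain A] in
/-- **the dichotomy** -/
theorem dich [IsAlgClosed L] {σ τ : G} {l : ℕ}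
    (hgen : ∀ N, Subgroup.closure (QuotientGroup.mk' (NN ρ (maximalIdeal A ^ N)) '' {σ, τ}) = ⊤)
    (hrel : ∀ N, (τ ^ l)⁻¹ * (σ * τ * σ⁻¹) ∈ NN ρ (maximalIdeal A ^ N)) :
    (∃ v : Fin 2 → L, v ≠ 0 ∧ ∀ g, Pres ρ L v g) ∨
    ((∀ I : Ideal A, σ ^ 2 ∈ NN ρ I) ∧ (∀ I : Ideal A, τ ^ (l + 1) ∈ NN ρ I) ∧
      ¬ ∀ N, σ ∈ NN ρ (maximalIdeal A ^ N)) := by
  have hdone : ∀ v : Fin 2 → L, v ≠ 0 → Pres ρ L v σ → Pres ρ L v τ → ∀ g, Pres ρ L v g := by
    intro v hv h1 h2
    refine pres_gen hv hgen ?_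
    intro t ht
    rcases ht with rfl | ht
    · exact h1
    · rw [Set.mem_singleton_iff] at ht
      rw [ht]
      exact h2
  by_cases hM : ∃ a : L, ML ρ L τ = a • 1
  · left
    obtain ⟨a, ha⟩ := hM
    obtain ⟨v, c, hv, hvc⟩ := exists_eig (ML ρ L σ)
    exact ⟨v, hv, hdone v hv ⟨c, hvc⟩ ⟨a, by rw [ha, Matrix.smul_mulVec, Matrix.one_mulVec]⟩⟩
  · obtain ⟨v, lam, hv, hvl⟩ := exists_eig (ML ρ L τ)
    by_cases hS : wed (ML ρ L σ *ᵥ v) v = 0
    · left
      obtain ⟨c, hc⟩ := eig_of_wed hv hS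
      exact ⟨v, hv, hdone v hv ⟨c, hc⟩ ⟨lam, hvl⟩⟩
    · right
      obtain ⟨c, hc⟩ := ML_of_NN (L := L) hrel
      have h1 : ML ρ L σ * ML ρ L τ = c • (ML ρ L τ ^ l * ML ρ L σ) := by
        have h2 : σ * τ = τ ^ l * ((τ ^ l)⁻¹ * (σ * τ * σ⁻¹)) * σ := by group
        rw [← ML_mul, h2, ML_mul, ML_mul, hc, ML_pow, Matrix.mul_smul, Matrix.mul_one,
          Matrix.smul_mul]
      obtain ⟨h2, h3⟩ := core2 (ML_inv ρ L σ) (ML_inv ρ L τ) h1 hv hvl
        (fun a ha => hM ⟨a, ha⟩) hS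
      refine ⟨sc_of_ML (L := L) (by rw [ML_pow]; exact h2), sc_of_ML (L := L) (by rw [ML_pow]; exact h3), ?_⟩
      intro h
      obtain ⟨a, ha⟩ := ML_of_NN (L := L) h
      apply hS
      rw [ha, Matrix.smul_mulVec, Matrix.one_mulVec, wed_smul_left, wed_self, mul_zero]

end

/-- dihedral groups -/
theorem dihedral {E : Type} [Group E] {s t : E} {l : ℕ} (hgen : Subgroup.closure {s, t} = ⊤)
    (hrel : s * t * s⁻¹ = t ^ l) (hs : s ^ 2 = 1) (ht : t ^ (l + 1) = 1) (x : E) :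
    ∃ a < 2, ∃ b < l + 1, x = s ^ a * t ^ b := by
  have hst : s * t * s⁻¹ = t⁻¹ := by
    rw [hrel]
    apply mul_right_cancel (b := t)
    rw [← pow_succ, ht, inv_mul_cancel]
  have hsn : ∀ n : ℤ, s * t ^ n = t ^ (-n) * s := by
    intro n
    have h1 : s * t ^ n * s⁻¹ = t ^ (-n) := by
      rw [← conj_zpow, hst, _root_.inv_zpow, _root_.zpow_neg]
    rw [← h1]
    group
  have hsn' : ∀ n : ℤ, t ^ n * s = s * t ^ (-n) := by
    intro n
    rw [hsn, neg_neg]
  have hsi : s⁻¹ = s := by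
    rw [inv_eq_iff_mul_eq_one, ← pow_two, hs]
  have hx : x ∈ Subgroup.closure ({s, t} : Set E) := by rw [hgen]; trivial
  have key : ∃ n : ℤ, x = t ^ n ∨ x = s * t ^ n := by
    induction hx using Subgroup.closure_induction with
    | mem x hx =>
      rcases hx with rfl | hx
      · exact ⟨0, Or.inr (by simp)⟩
      · rw [Set.mem_singleton_iff] at hx
        exact ⟨1, Or.inl (by rw [hx, _root_.zpow_one])⟩
    | one => exact ⟨0, Or.inl (by simp)⟩
    | mul x y _ _ hx hy =>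
      obtain ⟨n, hn⟩ := hx
      obtain ⟨m, hm⟩ := hy
      rcases hn with rfl | rfl <;> rcases hm with rfl | rfl
      · exact ⟨n + m, Or.inl (by rw [_root_.zpow_add])⟩
      · exact ⟨-n + m, Or.inr (by rw [← mul_assoc, hsn', mul_assoc, ← _root_.zpow_add])⟩
      · exact ⟨n + m, Or.inr (by rw [mul_assoc, ← _root_.zpow_add])⟩
      · refine ⟨-n + m, Or.inl ?_⟩
        have : s * t ^ n * (s * t ^ m) = s * (t ^ n * s) * t ^ m := by group
        rw [this, hsn', ← mul_assoc, ← pow_two, hs, one_mul, ← _root_.zpow_add]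
    | inv x _ hx =>
      obtain ⟨n, hn⟩ := hx
      rcases hn with rfl | rfl
      · exact ⟨-n, Or.inl (by rw [_root_.zpow_neg])⟩
      · refine ⟨n, Or.inr ?_⟩
        rw [_root_.mul_inv_rev, hsi, ← _root_.zpow_neg, hsn', neg_neg]
  obtain ⟨n, hn⟩ := key
  have hmod : t ^ n = t ^ (n % ((l + 1 : ℕ) : ℤ)).toNat := by
    rw [← _root_.zpow_natCast, Int.toNat_of_nonneg (Int.emod_nonneg _ (by omega))]
    conv_lhs => rw [← Int.emod_add_mul_ediv n ((l + 1 : ℕ) : ℤ), _root_.zpow_add, _root_.zpow_mul, _root_.zpow_natCast,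
      ht, _root_.one_zpow, mul_one]
  have hlt : (n % ((l + 1 : ℕ) : ℤ)).toNat < l + 1 := by
    have := Int.emod_lt_of_pos n (b := ((l + 1 : ℕ) : ℤ)) (by omega)
    omega
  rcases hn with h | h
  · exact ⟨0, by norm_num, _, hlt, by rw [h, pow_zero, one_mul, ← hmod]⟩
  · exact ⟨1, by norm_num, _, hlt, by rw [h, pow_one, ← hmod]⟩

section
variable {A : Type} [CommRing A] [IsLocalRing A] {G : Type} [Group G] {ρ : G →* GL (Fin 2) A}

/-- finite projective image -/
theorem proj_fin {σ τ : G} {l : ℕ}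
    (hgen : ∀ N, Subgroup.closure (QuotientGroup.mk' (NN ρ (maximalIdeal A ^ N)) '' {σ, τ}) = ⊤)
    (hrel : ∀ N, (τ ^ l)⁻¹ * (σ * τ * σ⁻¹) ∈ NN ρ (maximalIdeal A ^ N))
    (h2 : ∀ I : Ideal A, σ ^ 2 ∈ NN ρ I) (hl : ∀ I : Ideal A, τ ^ (l + 1) ∈ NN ρ I) :
    ∃ T : Finset G, ∀ g, ∃ t ∈ T, ∀ N, t⁻¹ * g ∈ NN ρ (maximalIdeal A ^ N) := by
  classical
  let T : Finset G := (Finset.range 2 ×ˢ Finset.range (l + 1)).image fun x => σ ^ x.1 * τ ^ x.2
  refine ⟨T, fun g => ?_⟩
  have hN : ∀ N, ∃ t ∈ T, t⁻¹ * g ∈ NN ρ (maximalIdeal A ^ N) := by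
    intro N
    set K := NN ρ (maximalIdeal A ^ N) with hK
    have hg := hgen N
    rw [Set.image_pair] at hg
    have r1 : QuotientGroup.mk' K σ * QuotientGroup.mk' K τ * (QuotientGroup.mk' K σ)⁻¹ =
        QuotientGroup.mk' K τ ^ l := by
      rw [← map_mul, ← map_inv, ← map_mul, ← map_pow]
      exact (QuotientGroup.eq.2 (hrel N)).symm
    have r2 : QuotientGroup.mk' K σ ^ 2 = 1 := by
      rw [← map_pow]
      exact (QuotientGroup.eq_one_iff _).2 (h2 _)
    have r3 : QuotientGroup.mk' K τ ^ (l + 1) = 1 := by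
      rw [← map_pow]
      exact (QuotientGroup.eq_one_iff _).2 (hl _)
    obtain ⟨a, ha, b, hb, hab⟩ := dihedral hg r1 r2 r3 (QuotientGroup.mk' K g)
    refine ⟨σ ^ a * τ ^ b, Finset.mem_image.2 ⟨(a, b), by simp; omega, rfl⟩, ?_⟩
    rw [← map_pow, ← map_pow, ← map_mul] at hab
    exact QuotientGroup.eq.1 hab.symm
  by_contra hcon
  push Not at hcon
  choose! f hf using hcon
  obtain ⟨t, ht, h⟩ := hN (T.sup f)
  exact hf t ht (NN_mono (Ideal.pow_le_pow_right (Finset.le_sup ht)) h)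

end

end Pool.Agent.X290.FM2
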