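import Pool.Agent.X290.FM2.Char2
import Pool.Agent.X290.FM2.Dich

/-!
# Complex conjugation, characters, compactness
-/

set_option autoImplicit false

namespace Pool.Agent.X290.FM2

open NumberField Matrix IsLocalRing Pool.Agent.W569.FM Pool.Agent.TH831.OT

/-- complex conjugations exist -/
theorem exists_conj' : ∃ (c : GF ℚ) (φ : AlgebraicClosure ℚ →+* ℂ),
    ∀ x, φ (c x) = (starRingEnd ℂ) (φ x) := by
  have key : ∀ (F : Type) [Field F] [Algebra F ℂ], (∀ x : F, (starRingEnd ℂ) (algebraMap F ℂ x) =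
      algebraMap F ℂ x) → ∃ (c : GF F) (φ : AlgebraicClosure F →+* ℂ),
      ∀ x, φ (c x) = (starRingEnd ℂ) (φ x) := by
    intro F _ _ hF
    let φ : AlgebraicClosure F →ₐ[F] ℂ := IsAlgClosed.lift
    let _ : Algebra (AlgebraicClosure F) ℂ := φ.toRingHom.toAlgebra
    have : IsScalarTower F (AlgebraicClosure F) ℂ := IsScalarTower.of_algHom φ
    let s : ℂ ≃ₐ[F] ℂ := AlgEquiv.ofRingEquiv (f := starRingAut) hF
    refine ⟨s.restrictNormal (AlgebraicClosure F), φ.toRingHom, fun x => ?_⟩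
    exact AlgEquiv.restrictNormal_commutes s (AlgebraicClosure F) x
  exact key ℚ fun x => by simp

theorem conj_sq {c : GF ℚ} {φ : AlgebraicClosure ℚ →+* ℂ}
    (h : ∀ x, φ (c x) = (starRingEnd ℂ) (φ x)) : c * c = 1 := by
  apply AlgEquiv.ext
  intro x
  apply φ.injective
  show φ (c (c x)) = φ x
  rw [h, h, Complex.conj_conj]

/-- a nontrivial character of order `p` of the group of units modulo `l` -/
theorem exists_char {p l : ℕ} [hp : Fact p.Prime] (hl : l.Prime) (h : p ∣ l - 1) :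
    ∃ χ : (ZMod l)ˣ →* Multiplicative (ZMod p), ∃ x, χ x ≠ 1 := by
  have hfl : Fact l.Prime := ⟨hl⟩
  have hcard : Nat.card (ZMod l)ˣ = l - 1 := by
    rw [Nat.card_eq_fintype_card, ZMod.card_units]
  have hdvd : p ∣ Nat.card (ZMod l)ˣ := by rw [hcard]; exact h
  let e := zmodCyclicMulEquiv (G := (ZMod l)ˣ) inferInstance
  let f : Multiplicative (ZMod (Nat.card (ZMod l)ˣ)) →* Multiplicative (ZMod p) :=
    AddMonoidHom.toMultiplicative (ZMod.castHom hdvd (ZMod p)).toAddMonoidHom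
  refine ⟨f.comp e.symm.toMonoidHom, e (Multiplicative.ofAdd 1), ?_⟩
  intro h1
  have h2 : f (Multiplicative.ofAdd 1) = 1 := by
    have : (f.comp e.symm.toMonoidHom) (e (Multiplicative.ofAdd 1)) = f (Multiplicative.ofAdd 1) := by
      show f (e.symm (e (Multiplicative.ofAdd 1))) = _
      rw [MulEquiv.symm_apply_apply]
    rw [← this, h1]
  have h3 : ZMod.castHom hdvd (ZMod p) 1 = 0 := congrArg Multiplicative.toAdd h2
  rw [map_one] at h3
  exact one_ne_zero h3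

/-- the decomposition group -/
def Dsub (P : Ideal (OO ℚ)) : Subgroup (GF ℚ) where
  carrier := DSet P
  mul_mem' := by
    intro a b ha hb x
    rw [mul_smul]
    exact (ha _).trans (hb x)
  one_mem' := fun x => by rw [one_smul]
  inv_mem' := by
    intro a ha x
    have := ha (a⁻¹ • x)
    rw [smul_inv_smul] at this
    exact this.symm

theorem Dsub_closed (P : Ideal (OO ℚ)) : IsClosed (Dsub P : Set (GF ℚ)) := by
  let _ : TopologicalSpace (OO ℚ) := ⊥
  have : DiscreteTopology (OO ℚ) := ⟨rfl⟩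
  have hcont : ContinuousSMul (GF ℚ) (OO ℚ) := cont_act
  have : (Dsub P : Set (GF ℚ)) = ⋂ x : OO ℚ, {g : GF ℚ | g • x ∈ P ↔ x ∈ P} := by
    ext g
    rw [Set.mem_iInter]
    rfl
  rw [this]
  refine isClosed_iInter fun x => ?_
  have h1 : Continuous fun g : GF ℚ => g • x := continuous_id.smul continuous_const
  exact (isClosed_discrete {y : OO ℚ | y ∈ P ↔ x ∈ P}).preimage h1

section
variable {A : Type} [CommRing A] [IsLocalRing A] [TopologicalSpace A]

omit [TopologicalSpace A] in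
theorem mem_of_gen {G : Type} [Group G] {ρ : G →* GL (Fin 2) A} {D : Subgroup G} {N : ℕ}
    (h : Subgroup.closure (QuotientGroup.mk' (NN ρ (maximalIdeal A ^ N)) '' (D : Set G)) = ⊤)
    (g : G) : ∃ d ∈ D, d⁻¹ * g ∈ NN ρ (maximalIdeal A ^ N) := by
  have h1 : QuotientGroup.mk' (NN ρ (maximalIdeal A ^ N)) g ∈
      (Subgroup.closure (D : Set G)).map (QuotientGroup.mk' (NN ρ (maximalIdeal A ^ N))) := by
    rw [MonoidHom.map_closure, h]
    trivial
  rw [Subgroup.closure_eq] at h1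
  obtain ⟨w, hw, hwg⟩ := h1
  exact ⟨w, hw, QuotientGroup.eq.1 hwg⟩

/-- compactness -/
theorem exists_limit {G : Type} [Group G] [TopologicalSpace G] [IsTopologicalGroup G]
    [CompactSpace G] {ρ : G →* GL (Fin 2) A} (hA : IsAdic (maximalIdeal A)) (hρ : Continuous ρ)
    {D : Subgroup G} (hD : IsClosed (D : Set G)) {g : G}
    (h : ∀ N : ℕ, ∃ d ∈ D, d⁻¹ * g ∈ NN ρ (maximalIdeal A ^ N)) :
    ∃ d ∈ D, ∀ N : ℕ, d⁻¹ * g ∈ NN ρ (maximalIdeal A ^ N) := by
  let t : ℕ → Set G := fun N => (D : Set G) ∩ {d | d⁻¹ * g ∈ NN ρ (maximalIdeal A ^ N)}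
  have hcl : ∀ N, IsClosed (t N) := by
    intro N
    refine hD.inter ?_
    have h1 : IsClosed (NN ρ (maximalIdeal A ^ N) : Set G) :=
      Subgroup.isClosed_of_isOpen _ (NN_open hA hρ N)
    have h2 : Continuous fun d : G => d⁻¹ * g := continuous_inv.mul continuous_const
    exact h1.preimage h2
  obtain ⟨d, hd⟩ := IsCompact.nonempty_iInter_of_sequence_nonempty_isCompact_isClosed t
    (fun N x hx => ⟨hx.1, NN_mono (Ideal.pow_le_pow_right (Nat.le_succ N)) hx.2⟩)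
    (fun N => by
      obtain ⟨d, hd, hd'⟩ := h N
      exact ⟨d, hd, hd'⟩) (hcl 0).isCompact hcl
  rw [Set.mem_iInter] at hd
  exact ⟨d, (hd 0).1, fun N => (hd N).2⟩

end

section
variable {A : Type} [CommRing A] [IsLocalRing A] [IsNoetherianRing A]

theorem scalar_mul {G : Type} [Group G] {ρ : G →* GL (Fin 2) A} {d g : G}
    (h : ∀ N : ℕ, d⁻¹ * g ∈ NN ρ (maximalIdeal A ^ N)) :
    ∃ c : A, (ρ g : Matrix (Fin 2) (Fin 2) A) = c • (ρ d : Matrix (Fin 2) (Fin 2) A) := by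
  have h1 := scalar_of_NN h
  refine ⟨(ρ (d⁻¹ * g) : Matrix (Fin 2) (Fin 2) A) 0 0, ?_⟩
  have e : (ρ g : Matrix (Fin 2) (Fin 2) A) = (ρ d : Matrix (Fin 2) (Fin 2) A) *
      (ρ (d⁻¹ * g) : Matrix (Fin 2) (Fin 2) A) := by
    rw [← GeneralLinearGroup.coe_mul, ← map_mul, mul_inv_cancel_left]
  rw [e]
  conv_lhs => rw [h1, Matrix.mul_smul, Matrix.mul_one]

omit [IsNoetherianRing A] in
/-- odd `p`: no dihedral case -/
theorem no_dihedral {G : Type} [Group G] {ρ : G →* GL (Fin 2) A} {p : ℕ} [hp : Fact p.Prime]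
    (hp2 : p ≠ 2) (hG : ∀ N, IsPGroup p (G ⧸ NN ρ (maximalIdeal A ^ N))) {σ : G}
    (h2 : ∀ I : Ideal A, σ ^ 2 ∈ NN ρ I) (N : ℕ) : σ ∈ NN ρ (maximalIdeal A ^ N) := by
  obtain ⟨k, hk⟩ := hG N (QuotientGroup.mk σ)
  rw [← QuotientGroup.eq_one_iff]
  have h3 : (QuotientGroup.mk σ : G ⧸ NN ρ (maximalIdeal A ^ N)) ^ 2 = 1 := by
    rw [← QuotientGroup.mk_pow, QuotientGroup.eq_one_iff]
    exact h2 _
  have h4 : Nat.Coprime 2 (p ^ k) := by
    apply Nat.Coprime.pow_right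
    rw [Nat.coprime_primes Nat.prime_two hp.out]
    exact fun h => hp2 h.symm
  have h5 := orderOf_dvd_of_pow_eq_one h3
  have h6 := orderOf_dvd_of_pow_eq_one hk
  have h7 : orderOf (QuotientGroup.mk σ : G ⧸ NN ρ (maximalIdeal A ^ N)) = 1 :=
    Nat.dvd_one.1 (h4 ▸ Nat.dvd_gcd h5 h6)
  exact orderOf_eq_one_iff.1 h7

end

end Pool.Agent.X290.FM2
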