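import Pool.Agent.X290.FM2.Fin

/-!
# The main theorem
-/

set_option autoImplicit false

open NumberField Matrix IsLocalRing

namespace Pool.Agent.X290.FM2

open Pool.Agent.W569.FM Pool.Agent.TH831.OT

def UnrOut {A : Type} [CommRing A] (p : ℕ) (S : Finset ℕ) (ρ : GF ℚ →* GL (Fin 2) A) : Prop :=
  ∀ P : Ideal (OO ℚ), P.IsMaximal →
    (∀ l ∈ S, (l : OO ℚ) ∉ P) → (p : OO ℚ) ∉ P →
      ∀ τ : GF ℚ, (∀ x : OO ℚ, τ • x - x ∈ P) → ρ τ = 1

def StabLine {A : Type} [CommRing A] (ρ : GF ℚ →* GL (Fin 2) A)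
    (L : Type) [Field L] [Algebra A L] (D : Set (GF ℚ)) : Prop :=
  ∃ v : Fin 2 → L, v ≠ 0 ∧ ∀ g ∈ D, ∃ c : L,
    (ρ g : Matrix (Fin 2) (Fin 2) A).map (algebraMap A L) *ᵥ v = c • v

def FinProj {A : Type} [CommRing A] (ρ : GF ℚ →* GL (Fin 2) A) : Prop :=
  ∃ T : Finset (GF ℚ), ∀ g, ∃ t ∈ T, ∃ c : A,
    (ρ g : Matrix (Fin 2) (Fin 2) A) = c • (ρ t : Matrix (Fin 2) (Fin 2) A)

def Ev {A : Type} [CommRing A] (ρ : GF ℚ →* GL (Fin 2) A) : Prop :=
  ∀ c : GF ℚ, (∃ φ : AlgebraicClosure ℚ →+* ℂ, ∀ x, φ (c x) = (starRingEnd ℂ) (φ x)) →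
    (ρ c : Matrix (Fin 2) (Fin 2) A).det = 1

def Tam (p : ℕ) (S : Finset ℕ) : Finset ℕ := S.filter fun l => p ∣ l - 1


theorem even_scalar {A : Type} [CommRing A] [IsDomain A] (h2 : (2 : A) ≠ 0)
    {X : Matrix (Fin 2) (Fin 2) A} (hX : X * X = 1) (hd : X.det = 1) : X = X 0 0 • 1 := by
  rw [Matrix.det_fin_two] at hd
  have e := fun i j => congrFun (congrFun hX i) j
  have e00 := e 0 0
  have e01 := e 0 1
  have e10 := e 1 0
  have e11 := e 1 1
  simp only [Matrix.mul_apply, Fin.sum_univ_two, Matrix.one_apply_eq] at e00 e11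
  rw [Matrix.mul_apply, Fin.sum_univ_two, Matrix.one_apply_ne (by decide)] at e01 e10
  have h3 : (X 0 0 + X 1 1) * X 0 0 = 2 := by linear_combination e00 + hd
  have ht : X 0 0 + X 1 1 ≠ 0 := by
    intro h
    rw [h, zero_mul] at h3
    exact h2 h3.symm
  have h01 : X 0 1 = 0 := by
    apply mul_left_cancel₀ ht
    linear_combination e01
  have h10 : X 1 0 = 0 := by
    apply mul_left_cancel₀ ht
    linear_combination e10
  have h11 : X 1 1 = X 0 0 := by
    apply mul_left_cancel₀ ht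
    linear_combination e11 - e00
  ext i j
  fin_cases i <;> fin_cases j
  · simp
  · simpa using h01
  · simpa using h10
  · simpa using h11

/-- The theorem. -/
theorem main (p : ℕ) [Fact p.Prime] (S : Finset ℕ) (hS : ∀ l ∈ S, l.Prime ∧ l ≠ p)
    (A : Type) [CommRing A] [IsDomain A] [IsLocalRing A] [IsNoetherianRing A]
    [TopologicalSpace A] (hA : IsAdic (maximalIdeal A)) (hpA : (p : A) ∈ maximalIdeal A)
    (L : Type) [Field L] [IsAlgClosed L] [Algebra A L] [FaithfulSMul A L]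
    (ρ : GF ℚ →* GL (Fin 2) A) (hρ : Continuous ρ)
    (hur : UnrOut p S ρ) (hres : ∃ a : GF ℚ →* (ResidueField A)ˣ, ∀ g,
    IsNilpotent ((ρ g : Matrix (Fin 2) (Fin 2) A).map (residue A) -
      (a g : ResidueField A) • (1 : Matrix (Fin 2) (Fin 2) (ResidueField A)))) :
    (p ≠ 2 → (Tam p S).card ≤ 1 → (∀ l ∈ Tam p S, ¬ p ^ 2 ∣ l - 1) →
      StabLine ρ L Set.univ) ∧
    (p = 2 → (∀ q ∈ S, q % 8 = 3 ∨ q % 8 = 5) → S.card = 1 → (2 : A) ≠ 0 → Ev ρ →
      StabLine ρ L Set.univ ∨ FinProj ρ) ∧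
    (p = 2 → (∀ q ∈ S, q % 8 = 3 ∨ q % 8 = 5) → S.card = 1 →
      ∀ P : Ideal (OO ℚ), P.IsMaximal → (2 : OO ℚ) ∈ P →
        (∀ g, ∃ h ∈ DSet P, ∃ c : A,
          (ρ g : Matrix (Fin 2) (Fin 2) A) = c • (ρ h : Matrix (Fin 2) (Fin 2) A)) ∧
        (StabLine ρ L (DSet P) → StabLine ρ L Set.univ)) := by
  have hp : p.Prime := Fact.out
  obtain ⟨a, ha⟩ := hres
  have hpG := isPGroup (ρ := ρ) hp hpA (a := fun g => (a g : ResidueField A)) ha
  have hFROB : S_FROB := Pool.Agent.W571.FM.main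
  have hTAME : S_TAME := Pool.Agent.W327.FM.main Pool.Agent.W258.FM.main
  have hurS : ∀ g ∈ UrSet p S, ρ g = 1 := by
    rintro g ⟨Q, hQ, h2, h3, h4⟩
    exact hur Q hQ h2 h3 g h4
  -- the tame relation
  have hrelT : ∀ l : ℕ, l.Prime → l ≠ p → ∀ P : Ideal (OO ℚ), P.IsMaximal → (l : OO ℚ) ∈ P →
      ∀ τ : GF ℚ, InInertia P τ → ∀ σ : GF ℚ, FrobAt l P σ →
        ∀ N, (τ ^ l)⁻¹ * (σ * τ * σ⁻¹) ∈ NN ρ (maximalIdeal A ^ N) := by
    intro l hl hlp P hP hlP τ hτ σ hσ N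
    have hfin : Finite (GF ℚ ⧸ NN ρ (maximalIdeal A ^ N)) :=
      Subgroup.quotient_finite_of_isOpen _ (NN_open hA hρ N)
    have h1 := (hTAME p l hp hl (fun h => hlp h.symm) (GF ℚ ⧸ NN ρ (maximalIdeal A ^ N)) (hpG N)
      (QuotientGroup.mk' _) (by
        rw [QuotientGroup.ker_mk']
        exact NN_open hA hρ N) P hP hlP).1 τ hτ σ hσ
    rw [← map_pow] at h1
    exact QuotientGroup.eq.1 h1.symm
  have hline : (∃ v : Fin 2 → L, v ≠ 0 ∧ ∀ g, Pres ρ L v g) → StabLine ρ L Set.univ := by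
    rintro ⟨v, hv, h⟩
    exact ⟨v, hv, fun g _ => h g⟩
  refine ⟨?_, ?_, ?_⟩
  · -- odd `p`
    intro hp2 hcard hsq
    have hχ : ∀ j : ℕ, ∃ χ : (ZMod j)ˣ →* Multiplicative (ZMod p), j ∈ S → p ∣ j - 1 →
        ∃ x, χ x ≠ 1 := by
      intro j
      by_cases h : j ∈ S ∧ p ∣ j - 1
      · obtain ⟨χ, x, hx⟩ := exists_char (p := p) (hS j h.1).1 h.2
        exact ⟨χ, fun _ _ => ⟨x, hx⟩⟩
      · exact ⟨1, fun h1 h2 => absurd ⟨h1, h2⟩ h⟩
    choose χ hχ using hχ
    obtain ⟨P0, hP0, hpP0, -⟩ := (hFROB p hp).1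
    classical
    have huniq : ∀ l ∈ S, p ∣ l - 1 → ∀ j ∈ S, p ∣ j - 1 → j = l := by
      intro l hl hl' j hj hj'
      exact Finset.card_le_one.1 hcard j (Finset.mem_filter.2 ⟨hj, hj'⟩) l
        (Finset.mem_filter.2 ⟨hl, hl'⟩)
    obtain ⟨Ad, hAd⟩ := exists_Ar hp2 S
      (fun l hl => ⟨(hS l hl).1, (hS l hl).2, fun h => by
        have h1 : p ∣ l - 1 := (dvd_pow_self p two_ne_zero).trans h
        exact hsq l (Finset.mem_filter.2 ⟨hl, h1⟩) h⟩) χ (fun l hl hl' => hχ l hl hl') P0 hP0 hpP0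
      (fun _ _ => 0)
      (fun j => if h : IsUnit (p : ZMod j) then Multiplicative.toAdd (χ j h.unit) else 0)
      (fun l hl hl' j hj hj' hne => absurd (huniq l hl hl' j hj hj') hne)
      (fun j _ _ x hx => by
        have h : IsUnit (p : ZMod j) := by rw [← hx]; exact x.isUnit
        rw [dif_pos h]
        congr 2
        exact Units.ext (by rw [hx]; rfl))
    have hfinish : ∀ (σ τ : GF ℚ) (l : ℕ),
        (∀ F : GF ℚ →* Multiplicative (ZMod p), IsOpen (F.ker : Set (GF ℚ)) →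
          (∀ τ ∈ UrSet p S, F τ = 1) → (∀ t ∈ ({σ, τ} : Set (GF ℚ)), F t = 1) → ∀ g, F g = 1) →
        (∀ N, (τ ^ l)⁻¹ * (σ * τ * σ⁻¹) ∈ NN ρ (maximalIdeal A ^ N)) →
        StabLine ρ L Set.univ := by
      intro σ τ l hF hrel
      have hg := gen (ρ := ρ) hpA (a := fun g => (a g : ResidueField A)) ha hA hρ (UrSet p S)
        {σ, τ} (fun g hg => ⟨1, by rw [hurS g hg, one_smul]; rfl⟩) hF
      rcases dich (L := L) hg hrel with h | ⟨h1, -, h3⟩
      · exact hline h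
      · exact absurd (no_dihedral hp2 hpG h1) h3
    rcases Finset.eq_empty_or_nonempty (S.filter fun l => p ∣ l - 1) with h0 | ⟨l, hl⟩
    · refine hfinish Ad.γ 1 0 ?_ ?_
      · intro F ho hu ht g
        have h1 := Ad.span F ho hu g
        have h2 : F Ad.γ = 1 := ht _ (by simp)
        have h3 : ∑ l ∈ S.filter (fun l => p ∣ l - 1), Ad.chi l g *
            Multiplicative.toAdd (F (Ad.τ l)) = 0 :=
          Finset.sum_eq_zero fun j hj => absurd hj (by rw [h0]; simp)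
        rw [h3, h2, toAdd_one, mul_zero, add_zero] at h1
        exact Multiplicative.toAdd.injective h1
      · intro N
        simp
    · have hlS := Finset.mem_filter.1 hl
      have hSl : (S.filter fun l => p ∣ l - 1) = {l} := by
        rw [Finset.eq_singleton_iff_unique_mem]
        refine ⟨hl, fun j hj => ?_⟩
        have hj' := Finset.mem_filter.1 hj
        exact huniq l hlS.1 hlS.2 j hj'.1 hj'.2
      obtain ⟨P, hP, hlP, hτ, hσ⟩ := hAd l hlS.1 hlS.2
      refine hfinish (Ad.σ l) (Ad.τ l) l ?_ (hrelT l (hS l hlS.1).1 (hS l hlS.1).2 P hP hlP _ hτ _ hσ)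
      intro F ho hu ht g
      have h2 : F (Ad.σ l) = 1 := ht _ (by simp)
      have h3 : F (Ad.τ l) = 1 := ht _ (by simp)
      have hspan : ∀ g, Multiplicative.toAdd (F g) =
          Ad.psi g * Multiplicative.toAdd (F Ad.γ) := by
        intro g
        have h1 := Ad.span F ho hu g
        rw [h1, add_eq_left]
        refine Finset.sum_eq_zero fun j hj => ?_
        have : j = l := by
          rw [hSl] at hj
          exact Finset.mem_singleton.1 hj
        rw [this, h3, toAdd_one, mul_zero]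
      have h4 := hspan (Ad.σ l)
      rw [h2, toAdd_one, Ad.hu l hl] at h4
      obtain ⟨s, -, -, hu0⟩ := Ad.hl l hl
      have h5 : Multiplicative.toAdd (F Ad.γ) = 0 :=
        (mul_eq_zero.1 h4.symm).resolve_left hu0
      have h6 := hspan g
      rw [h5, mul_zero] at h6
      exact Multiplicative.toAdd.injective h6
  · -- even representations
    rintro rfl hS8 hcard h2A hev
    obtain ⟨q, rfl⟩ := Finset.card_eq_one.1 hcard
    have hq := (hS q (by simp)).1
    have hq8 := hS8 q (by simp)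
    have hqp := (hS q (by simp)).2
    obtain ⟨c, φ, hc⟩ := exists_conj'
    obtain ⟨P, hP, hqP, σ, hσ⟩ := (hFROB q hq).1
    obtain ⟨r, hr⟩ := exists_sqrt_int (q : ℤ)
    have hr0 : r ≠ 0 := by
      rintro rfl
      have h5 : ((q : ℤ) : OO ℚ) = 0 := by rw [← hr]; ring
      have h6 : (q : ℤ) = 0 := by exact_mod_cast h5
      have := hq.pos
      omega
    obtain ⟨g0, hg0⟩ : ∃ g0 : GF ℚ, g0 • r = -r := by
      by_contra hcon
      push Not at hcon
      obtain ⟨n, hn⟩ := fixed_int r fun g => (smul_eq_or hr g).resolve_right (hcon g)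
      have h5 : n ^ 2 = q := by
        apply int_inj
        rw [← hr, hn]
        push_cast
        ring
      have h6 : (q : ℤ) ∣ n := by
        have : Prime (q : ℤ) := Nat.prime_iff_prime_int.1 hq
        exact this.dvd_of_dvd_pow ⟨1, by rw [h5, mul_one]⟩
      obtain ⟨m, hm⟩ := h6
      rw [hm] at h5
      have h7 : (q : ℤ) * m ^ 2 = 1 := by
        have hq0 : (q : ℤ) ≠ 0 := by exact_mod_cast hq.ne_zero
        apply mul_left_cancel₀ hq0
        linear_combination h5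
      have h8 : (q : ℤ) ∣ 1 := ⟨m ^ 2, h7.symm⟩
      have := Int.le_of_dvd (by norm_num) h8
      have := hq.two_le
      omega
    have hsf : Squarefree (q : ℤ) := (Nat.prime_iff_prime_int.1 hq).squarefree
    obtain ⟨τ, hτ, hτr⟩ := ram hr hr0 hsf hg0 (l := q) dvd_rfl P hP.isPrime hqP
    have hcs : ∃ x : A, (ρ c : Matrix (Fin 2) (Fin 2) A) = x • 1 := by
      refine ⟨_, even_scalar h2A ?_ (hev c ⟨φ, hc⟩)⟩
      rw [← GeneralLinearGroup.coe_mul, ← map_mul, conj_sq hc, map_one]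
      rfl
    have hg := gen (ρ := ρ) hpA (a := fun g => (a g : ResidueField A)) ha hA hρ
      (UrSet 2 {q} ∪ {c}) {σ, τ} (by
        rintro g (hg | hg)
        · exact ⟨1, by rw [hurS g hg, one_smul]; rfl⟩
        · rw [Set.mem_singleton_iff.1 hg]
          exact hcs) (by
        intro F ho hu ht g
        exact trivB hq hq8 F ho (fun g hg => hu g (Or.inl hg)) P hP hqP hσ hτ hr hτr φ hc
          (ht _ (by simp)) (ht _ (by simp)) (hu c (Or.inr rfl)) g)
    have hrel := hrelT q hq hqp P hP hqP τ hτ σ hσ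
    rcases dich (L := L) hg hrel with h | ⟨h1, h3, -⟩
    · exact Or.inl (hline h)
    · right
      obtain ⟨T, hT⟩ := proj_fin hg hrel h1 h3
      refine ⟨T, fun g => ?_⟩
      obtain ⟨t, ht, h⟩ := hT g
      exact ⟨t, ht, scalar_mul h⟩
  · -- the decomposition group at `2`
    rintro rfl hS8 hcard P hP h2P
    obtain ⟨q, rfl⟩ := Finset.card_eq_one.1 hcard
    have hq := (hS q (by simp)).1
    have hq8 := hS8 q (by simp)
    have hg := gen (ρ := ρ) hpA (a := fun g => (a g : ResidueField A)) ha hA hρ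
      (UrSet 2 {q}) (Dsub P : Set (GF ℚ)) (fun g hg => ⟨1, by rw [hurS g hg, one_smul]; rfl⟩) (by
        intro F ho hu ht g
        exact trivA hq hq8 F ho hu P hP h2P (fun g hg => ht g hg) g)
    have hex : ∀ g, ∃ h ∈ DSet P, ∃ c : A,
        (ρ g : Matrix (Fin 2) (Fin 2) A) = c • (ρ h : Matrix (Fin 2) (Fin 2) A) := by
      intro g
      obtain ⟨d, hd, h⟩ := exists_limit hA hρ (Dsub_closed P) (g := g)
        fun N => mem_of_gen (hg N) g
      exact ⟨d, hd, scalar_mul h⟩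
    refine ⟨hex, ?_⟩
    rintro ⟨v, hv, hD⟩
    refine ⟨v, hv, fun g _ => ?_⟩
    obtain ⟨h, hh, c, hc⟩ := hex g
    obtain ⟨x, hx⟩ := hD h hh
    refine ⟨algebraMap A L c * x, ?_⟩
    have e : (ρ g : Matrix (Fin 2) (Fin 2) A).map (algebraMap A L) =
        algebraMap A L c • (ρ h : Matrix (Fin 2) (Fin 2) A).map (algebraMap A L) := by
      rw [hc]
      ext i j
      rw [Matrix.map_apply, Matrix.smul_apply, Matrix.smul_apply, Matrix.map_apply, smul_eq_mul,
        smul_eq_mul, map_mul]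
    rw [e, Matrix.smul_mulVec, hx, smul_smul]

end Pool.Agent.X290.FM2
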