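import Pool.Agent.X290.FM2.Main

/-!
# The main theorem, in two parts
-/

set_option autoImplicit false

open NumberField Matrix IsLocalRing

namespace Pool.Agent.X290.FM2

open Pool.Agent.W569.FM Pool.Agent.TH831.OT

theorem mainA (p : ℕ) [Fact p.Prime] (S : Finset ℕ) (hS : ∀ l ∈ S, l.Prime ∧ l ≠ p)
    (hcard : (Tam p S).card ≤ 1)
    (hT : ∀ l ∈ Tam p S, (p ≠ 2 ∧ ¬ p ^ 2 ∣ l - 1) ∨ (p = 2 ∧ (l % 8 = 3 ∨ l % 8 = 5)))
    (A : Type) [CommRing A] [IsDomain A] [IsLocalRing A] [IsNoetherianRing A]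
    [TopologicalSpace A] (hA : IsAdic (maximalIdeal A)) (hpA : (p : A) ∈ maximalIdeal A)
    (h2A : (2 : A) ≠ 0)
    (L : Type) [Field L] [IsAlgClosed L] [Algebra A L] [FaithfulSMul A L]
    (ρ : GF ℚ →* GL (Fin 2) A) (hρ : Continuous ρ)
    (hur : UnrOut p S ρ) (hres : ∃ a : GF ℚ →* (ResidueField A)ˣ, ∀ g,
    IsNilpotent ((ρ g : Matrix (Fin 2) (Fin 2) A).map (residue A) -
      (a g : ResidueField A) • (1 : Matrix (Fin 2) (Fin 2) (ResidueField A))))
    (hev : p = 2 → Ev ρ) : StabLine ρ L Set.univ ∨ (p = 2 ∧ FinProj ρ) := by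
  by_cases hp2 : p = 2
  · subst hp2
    have hfil : Tam 2 S = S := by
      unfold Tam
      rw [Finset.filter_eq_self]
      intro l hl
      have h1 := (hS l hl).1.eq_two_or_odd
      have h2 := (hS l hl).2
      omega
    rw [hfil] at hcard hT
    have key : ∀ S' : Finset ℕ, (∀ l ∈ S', l.Prime ∧ l ≠ 2) → (∀ q ∈ S', q % 8 = 3 ∨ q % 8 = 5) →
        S'.card = 1 → S ⊆ S' → StabLine ρ L Set.univ ∨ (2 = 2 ∧ FinProj ρ) := by
      intro S' h1 h2 h3 h4
      rcases (main 2 S' h1 A hA hpA L ρ hρ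
        (fun P hP hl hp => hur P hP (fun l hl' => hl l (h4 hl')) hp) hres).2.1 rfl h2 h3 h2A
        (hev rfl) with h | h
      · exact Or.inl h
      · exact Or.inr ⟨rfl, h⟩
    rcases Finset.eq_empty_or_nonempty S with h0 | h0
    · refine key {3} ?_ ?_ (by simp) (by rw [h0]; simp)
      · intro l hl
        rw [Finset.mem_singleton] at hl
        subst hl
        exact ⟨Nat.prime_three, by norm_num⟩
      · intro l hl
        rw [Finset.mem_singleton] at hl
        subst hl
        exact Or.inl (by norm_num)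
    · refine key S hS (fun q hq => ?_) ?_ (Finset.Subset.refl S)
      · rcases hT q hq with h | h
        · exact absurd rfl h.1
        · exact h.2
      · have := h0.card_pos
        omega
  · left
    refine (main p S hS A hA hpA L ρ hρ hur hres).1 hp2 hcard fun l hl => ?_
    rcases hT l hl with h | h
    · exact h.2
    · exact absurd h.1 hp2

theorem mainB (q : ℕ) (hq : q.Prime) (hq8 : q % 8 = 3 ∨ q % 8 = 5)
    (A : Type) [CommRing A] [IsDomain A] [IsLocalRing A] [IsNoetherianRing A]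
    [TopologicalSpace A] (hA : IsAdic (maximalIdeal A)) (hpA : (2 : A) ∈ maximalIdeal A)
    (L : Type) [Field L] [Algebra A L] [FaithfulSMul A L]
    (ρ : GF ℚ →* GL (Fin 2) A) (hρ : Continuous ρ)
    (hur : UnrOut 2 {q} ρ) (hres : ∃ a : GF ℚ →* (ResidueField A)ˣ, ∀ g,
    IsNilpotent ((ρ g : Matrix (Fin 2) (Fin 2) A).map (residue A) -
      (a g : ResidueField A) • (1 : Matrix (Fin 2) (Fin 2) (ResidueField A))))
    (P : Ideal (OO ℚ)) (hP : P.IsMaximal) (h2P : (2 : OO ℚ) ∈ P) :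
    (∀ g, ∃ h ∈ DSet P, ∃ c : A,
      (ρ g : Matrix (Fin 2) (Fin 2) A) = c • (ρ h : Matrix (Fin 2) (Fin 2) A)) ∧
    (StabLine ρ L (DSet P) → StabLine ρ L Set.univ) := by
  have hfp : Fact (Nat.Prime 2) := ⟨Nat.prime_two⟩
  have hex : ∀ g, ∃ h ∈ DSet P, ∃ c : A,
      (ρ g : Matrix (Fin 2) (Fin 2) A) = c • (ρ h : Matrix (Fin 2) (Fin 2) A) := by
    have hinj : FaithfulSMul A (AlgebraicClosure (FractionRing A)) := by
      rw [faithfulSMul_iff_algebraMap_injective, IsScalarTower.algebraMap_eq A (FractionRing A)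
        (AlgebraicClosure (FractionRing A))]
      exact (algebraMap (FractionRing A) (AlgebraicClosure (FractionRing A))).injective.comp
        (IsFractionRing.injective A (FractionRing A))
    refine ((main 2 {q} ?_ A hA (by exact_mod_cast hpA) (AlgebraicClosure (FractionRing A)) ρ hρ
      hur hres).2.2 rfl ?_ (by simp) P hP h2P).1
    · intro l hl
      rw [Finset.mem_singleton] at hl
      subst hl
      exact ⟨hq, by omega⟩
    · intro l hl
      rw [Finset.mem_singleton] at hl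
      subst hl
      exact hq8
  refine ⟨hex, ?_⟩
  rintro ⟨v, hv, hD⟩
  refine ⟨v, hv, fun g _ => ?_⟩
  obtain ⟨h, hh, c, hc⟩ := hex g
  obtain ⟨x, hx⟩ := hD h hh
  refine ⟨algebraMap A L c * x, ?_⟩
  have e : (ρ g : Matrix (Fin 2) (Fin 2) A).map (algebraMap A L) =
      algebraMap A L c • (ρ h : Matrix (Fin 2) (Fin 2) A).map (algebraMap A L) := by
    rw [hc]
    ext i j
    rw [Matrix.map_apply, Matrix.smul_apply, Matrix.smul_apply, Matrix.map_apply, smul_eq_mul,
      smul_eq_mul, map_mul]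
  rw [e, Matrix.smul_mulVec, hx, smul_smul]

end Pool.Agent.X290.FM2
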