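import Pool.Agent.X148.FM.NCrit3
import Pool.Agent.TH831.OE.OrdH

/-!
# The elements acting as scalars modulo an ideal
-/

set_option autoImplicit false

namespace Pool.Agent.X290.FM2

open Matrix IsLocalRing

section
variable {A : Type} [CommRing A]

/-- scalar modulo `I` -/
def Sc (I : Ideal A) (X : Matrix (Fin 2) (Fin 2) A) : Prop :=
  X 0 1 ∈ I ∧ X 1 0 ∈ I ∧ X 0 0 - X 1 1 ∈ I

theorem center_iff {R : Type} [CommRing R] (X : GL (Fin 2) R) :
    X ∈ Subgroup.center (GL (Fin 2) R) ↔ X 0 1 = 0 ∧ X 1 0 = 0 ∧ X 0 0 = X 1 1 := by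
  constructor
  · intro h
    rw [Subgroup.mem_center_iff] at h
    have h1 := h ⟨!![1, 1; 0, 1], !![1, -1; 0, 1], by ext i j; fin_cases i <;> fin_cases j <;> simp,
      by ext i j; fin_cases i <;> fin_cases j <;> simp⟩
    have h2 := h ⟨!![1, 0; 1, 1], !![1, 0; -1, 1], by ext i j; fin_cases i <;> fin_cases j <;> simp,
      by ext i j; fin_cases i <;> fin_cases j <;> simp⟩
    have e1 := congrArg (fun Y : GL (Fin 2) R => (Y : Matrix (Fin 2) (Fin 2) R)) h1
    have e2 := congrArg (fun Y : GL (Fin 2) R => (Y : Matrix (Fin 2) (Fin 2) R)) h2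
    simp only [GeneralLinearGroup.coe_mul] at e1 e2
    have a1 := congrFun (congrFun e1 0) 0
    have a2 := congrFun (congrFun e1 0) 1
    have a3 := congrFun (congrFun e2 0) 0
    simp [Matrix.mul_apply, Fin.sum_univ_two] at a1 a2 a3
    refine ⟨?_, ?_, ?_⟩
    · linear_combination a3
    · linear_combination a1
    · linear_combination -a2
  · rintro ⟨h1, h2, h3⟩
    rw [Subgroup.mem_center_iff]
    intro Y
    apply GeneralLinearGroup.ext
    intro i j
    rw [GeneralLinearGroup.coe_mul, GeneralLinearGroup.coe_mul, Matrix.mul_apply, Matrix.mul_apply,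
      Fin.sum_univ_two, Fin.sum_univ_two]
    fin_cases i <;> fin_cases j <;> simp only [Fin.zero_eta, Fin.mk_one, h1, h2, h3] <;> ring

variable {G : Type} [Group G] (ρ : G →* GL (Fin 2) A)

/-- the elements which act as scalars modulo `I` -/
def NN (I : Ideal A) : Subgroup G :=
  (Subgroup.center (GL (Fin 2) (A ⧸ I))).comap
    ((GeneralLinearGroup.map (Ideal.Quotient.mk I)).comp ρ)

instance NN_normal (I : Ideal A) : (NN ρ I).Normal := by
  unfold NN; infer_instance

variable {ρ}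

theorem mem_NN {I : Ideal A} {g : G} : g ∈ NN ρ I ↔ Sc I (ρ g : Matrix (Fin 2) (Fin 2) A) := by
  unfold NN Sc
  rw [Subgroup.mem_comap, center_iff]
  show Ideal.Quotient.mk I ((ρ g : Matrix (Fin 2) (Fin 2) A) 0 1) = 0 ∧
    Ideal.Quotient.mk I ((ρ g : Matrix (Fin 2) (Fin 2) A) 1 0) = 0 ∧
    Ideal.Quotient.mk I ((ρ g : Matrix (Fin 2) (Fin 2) A) 0 0) =
      Ideal.Quotient.mk I ((ρ g : Matrix (Fin 2) (Fin 2) A) 1 1) ↔ _
  rw [Ideal.Quotient.eq_zero_iff_mem, Ideal.Quotient.eq_zero_iff_mem,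
    Ideal.Quotient.mk_eq_mk_iff_sub_mem]

theorem NN_mono {I J : Ideal A} (h : I ≤ J) : NN ρ I ≤ NN ρ J := by
  intro g hg
  rw [mem_NN] at hg ⊢
  exact ⟨h hg.1, h hg.2.1, h hg.2.2⟩

/-- reduction to the quotient ring -/
theorem sc_iff {I : Ideal A} {X : Matrix (Fin 2) (Fin 2) A} :
    Sc I X ↔ ∃ c : A ⧸ I, (Ideal.Quotient.mk I).mapMatrix X = c • 1 := by
  constructor
  · rintro ⟨h1, h2, h3⟩
    rw [← Ideal.Quotient.eq_zero_iff_mem] at h1 h2
    rw [← Ideal.Quotient.mk_eq_mk_iff_sub_mem] at h3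
    refine ⟨Ideal.Quotient.mk I (X 0 0), ?_⟩
    ext i j
    rw [RingHom.mapMatrix_apply, Matrix.map_apply, Matrix.smul_apply]
    fin_cases i <;> fin_cases j <;> simp [h1, h2, h3]
  · rintro ⟨c, hc⟩
    have e : ∀ i j, Ideal.Quotient.mk I (X i j) = c * (1 : Matrix (Fin 2) (Fin 2) (A ⧸ I)) i j := by
      intro i j
      have := congrFun (congrFun hc i) j
      rwa [RingHom.mapMatrix_apply, Matrix.map_apply, Matrix.smul_apply, smul_eq_mul] at this
    refine ⟨?_, ?_, ?_⟩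
    · rw [← Ideal.Quotient.eq_zero_iff_mem, e]; simp
    · rw [← Ideal.Quotient.eq_zero_iff_mem, e]; simp
    · rw [← Ideal.Quotient.mk_eq_mk_iff_sub_mem, e, e]; simp

theorem add_pow_sq_zero {R : Type} [CommRing R] (c : R) (Z : Matrix (Fin 2) (Fin 2) R)
    (hZ : Z * Z = 0) (n : ℕ) :
    (c • (1 : Matrix (Fin 2) (Fin 2) R) + Z) ^ (n + 1) =
      (c ^ (n + 1)) • 1 + ((n + 1 : ℕ) * c ^ n) • Z := by
  induction n with
  | zero => simp
  | succ n ih =>
    rw [pow_succ, ih, add_mul, mul_add, mul_add]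
    simp only [Matrix.smul_mul, Matrix.mul_smul, Matrix.one_mul, Matrix.mul_one, hZ, smul_zero,
      add_zero, smul_smul]
    rw [add_assoc, ← add_smul]
    congr 2
    · ring
    · push_cast; ring

theorem sc_pow_step {p : ℕ} (hp : p.Prime) {m : Ideal A} (hpm : (p : A) ∈ m) {j : ℕ} (hj : 1 ≤ j)
    {X : Matrix (Fin 2) (Fin 2) A} (h : Sc (m ^ j) X) : Sc (m ^ (j + 1)) (X ^ p) := by
  obtain ⟨h1, h2, h3⟩ := h
  set I := m ^ (j + 1) with hI
  set f := (Ideal.Quotient.mk I).mapMatrix (m := Fin 2) with hf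
  set Z : Matrix (Fin 2) (Fin 2) A := X - X 0 0 • 1 with hZ
  have hZm : ∀ a b, Z a b ∈ m ^ j := by
    intro a b
    fin_cases a <;> fin_cases b
    · simp [hZ]
    · simpa [hZ] using h1
    · simpa [hZ] using h2
    · have : Z 1 1 = -(X 0 0 - X 1 1) := by simp [hZ]
      show Z 1 1 ∈ m ^ j
      rw [this]
      exact (m ^ j).neg_mem h3
  have hmul : ∀ x ∈ m ^ j, ∀ y ∈ m ^ j, x * y ∈ I := by
    intro x hx y hy
    have h4 : x * y ∈ m ^ (j + j) := by
      rw [pow_add]; exact Ideal.mul_mem_mul hx hy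
    exact Ideal.pow_le_pow_right (by omega) h4
  have hZ2 : f Z * f Z = 0 := by
    rw [← map_mul]
    ext a b
    rw [hf, RingHom.mapMatrix_apply, Matrix.map_apply, Matrix.zero_apply,
      Ideal.Quotient.eq_zero_iff_mem, Matrix.mul_apply, Fin.sum_univ_two]
    exact I.add_mem (hmul _ (hZm _ _) _ (hZm _ _)) (hmul _ (hZm _ _) _ (hZm _ _))
  have hpZ : ∀ r : A ⧸ I, ((p : A ⧸ I) * r) • f Z = 0 := by
    intro r
    have h4 : (p : A ⧸ I) • f Z = 0 := by
      ext a b
      rw [Matrix.smul_apply, hf, RingHom.mapMatrix_apply, Matrix.map_apply, Matrix.zero_apply,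
        smul_eq_mul]
      have : (p : A ⧸ I) * Ideal.Quotient.mk I (Z a b) = Ideal.Quotient.mk I ((p : A) * Z a b) := by
        rw [map_mul, map_natCast]
      rw [this, Ideal.Quotient.eq_zero_iff_mem, mul_comm (p : A), hI, pow_succ]
      exact Ideal.mul_mem_mul (hZm a b) hpm
    rw [mul_comm, mul_smul, h4, smul_zero]
  rw [sc_iff]
  refine ⟨(Ideal.Quotient.mk I (X 0 0)) ^ p, ?_⟩
  have h5 : f X = Ideal.Quotient.mk I (X 0 0) • 1 + f Z := by
    have : f (X 0 0 • 1) = Ideal.Quotient.mk I (X 0 0) • 1 := by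
      ext a b
      rw [hf, RingHom.mapMatrix_apply, Matrix.map_apply, Matrix.smul_apply, Matrix.smul_apply,
        smul_eq_mul, smul_eq_mul, map_mul]
      congr 1
      by_cases hab : a = b
      · subst hab; simp
      · simp [hab]
    rw [← this, ← map_add]
    congr 1
    rw [hZ]
    abel
  obtain ⟨n, rfl⟩ : ∃ n, p = n + 1 := ⟨p - 1, by have := hp.pos; omega⟩
  rw [map_pow, h5, add_pow_sq_zero _ _ hZ2, hpZ, add_zero]

theorem sc_pow_base {p : ℕ} (hp : p.Prime) [IsLocalRing A] (hpm : (p : A) ∈ maximalIdeal A)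
    {X : Matrix (Fin 2) (Fin 2) A} {a : ResidueField A}
    (h : IsNilpotent (X.map (residue A) - a • (1 : Matrix (Fin 2) (Fin 2) (ResidueField A)))) :
    Sc (maximalIdeal A ^ 1) (X ^ p) := by
  have hz := Pool.Agent.TH831.OT.sq_zero_of_nil h
  have h1 : X.map (residue A) = a • 1 + (X.map (residue A) - a • 1) := by abel
  have hc : ((p : ℕ) : ResidueField A) = 0 := by
    rw [← map_natCast (residue A), residue_eq_zero_iff]
    exact hpm
  have h2 : (X ^ p).map (residue A) = (a ^ p) • 1 := by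
    have e : (X ^ p).map (residue A) = (X.map (residue A)) ^ p := by
      have := map_pow ((residue A).mapMatrix (m := Fin 2)) X p
      simpa using this
    rw [e, h1]
    obtain ⟨n, rfl⟩ : ∃ n, p = n + 1 := ⟨p - 1, by have := hp.pos; omega⟩
    rw [add_pow_sq_zero _ _ hz, hc, zero_mul, zero_smul, add_zero]
  have e : ∀ i j, residue A ((X ^ p) i j) =
      a ^ p * (1 : Matrix (Fin 2) (Fin 2) (ResidueField A)) i j := by
    intro i j
    have := congrFun (congrFun h2 i) j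
    rwa [Matrix.map_apply, Matrix.smul_apply, smul_eq_mul] at this
  rw [pow_one]
  refine ⟨?_, ?_, ?_⟩
  · rw [← residue_eq_zero_iff, e]; simp
  · rw [← residue_eq_zero_iff, e]; simp
  · rw [← residue_eq_zero_iff, map_sub, e, e]; simp

end

section
variable {A : Type} [CommRing A] [IsLocalRing A] {G : Type} [Group G] {ρ : G →* GL (Fin 2) A}

theorem NN_open [TopologicalSpace A] (hA : IsAdic (maximalIdeal A)) [TopologicalSpace G]
    [IsTopologicalGroup G] (hρ : Continuous ρ) (N : ℕ) :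
    IsOpen (NN ρ (maximalIdeal A ^ N) : Set G) := by
  have h1 : ∀ i j : Fin 2, ∀ᶠ g in nhds (1 : G),
      ((ρ g : Matrix (Fin 2) (Fin 2) A) - 1) i j ∈ maximalIdeal A ^ N := by
    intro i j
    have hv : Continuous fun g => (ρ g : Matrix (Fin 2) (Fin 2) A) :=
      Units.continuous_val.comp hρ
    have hc : Continuous fun g => (ρ g : Matrix (Fin 2) (Fin 2) A) i j := hv.matrix_elem i j
    have h2 := hc.continuousAt (x := (1 : G))
    rw [ContinuousAt, map_one, Units.val_one] at h2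
    have h3 := h2.eventually ((hA.hasBasis_nhds ((1 : Matrix (Fin 2) (Fin 2) A) i j)).mem_of_mem
      (i := N) trivial)
    filter_upwards [h3] with g hg
    obtain ⟨y, hy, hy'⟩ := hg
    rw [Matrix.sub_apply, ← hy']
    simpa using hy
  apply Subgroup.isOpen_of_mem_nhds _ (g := 1)
  filter_upwards [h1 0 1, h1 1 0, h1 0 0, h1 1 1] with g a1 a2 a3 a4
  show g ∈ NN ρ (maximalIdeal A ^ N)
  rw [mem_NN]
  refine ⟨?_, ?_, ?_⟩
  · simpa using a1
  · simpa using a2
  · have := Ideal.sub_mem _ a3 a4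
    simpa using this

theorem pow_mem_NN {p : ℕ} (hp : p.Prime) (hpm : (p : A) ∈ maximalIdeal A)
    {a : G → ResidueField A} (ha : ∀ g, IsNilpotent ((ρ g : Matrix (Fin 2) (Fin 2) A).map (residue A) -
      a g • (1 : Matrix (Fin 2) (Fin 2) (ResidueField A)))) (N : ℕ) (g : G) :
    g ^ p ^ (N + 1) ∈ NN ρ (maximalIdeal A ^ (N + 1)) := by
  rw [mem_NN]
  have h0 : ∀ n : ℕ, ((ρ (g ^ n) : GL (Fin 2) A) : Matrix (Fin 2) (Fin 2) A) =
      (ρ g : Matrix (Fin 2) (Fin 2) A) ^ n := fun n => by rw [map_pow]; rfl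
  rw [h0]
  induction N with
  | zero => simpa using sc_pow_base hp hpm (ha g)
  | succ N ih =>
    have := sc_pow_step hp hpm (j := N + 1) (by omega) ih
    rw [← pow_mul, ← pow_succ] at this
    exact this

theorem isPGroup {p : ℕ} (hp : p.Prime) (hpm : (p : A) ∈ maximalIdeal A)
    {a : G → ResidueField A} (ha : ∀ g, IsNilpotent ((ρ g : Matrix (Fin 2) (Fin 2) A).map (residue A) -
      a g • (1 : Matrix (Fin 2) (Fin 2) (ResidueField A)))) (N : ℕ) :
    IsPGroup p (G ⧸ NN ρ (maximalIdeal A ^ N)) := by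
  intro x
  obtain ⟨g, rfl⟩ := QuotientGroup.mk_surjective x
  refine ⟨N + 1, ?_⟩
  rw [← QuotientGroup.mk_pow, QuotientGroup.eq_one_iff]
  exact NN_mono (Ideal.pow_le_pow_right (by omega)) (pow_mem_NN hp hpm ha N g)

/-- the elements acting as scalars -/
theorem scalar_of_NN [IsNoetherianRing A] {g : G}
    (h : ∀ N, g ∈ NN ρ (maximalIdeal A ^ N)) :
    (ρ g : Matrix (Fin 2) (Fin 2) A) = (ρ g : Matrix (Fin 2) (Fin 2) A) 0 0 • 1 := by
  have hbot := Ideal.iInf_pow_eq_bot_of_isLocalRing (maximalIdeal A) (Ideal.IsPrime.ne_top inferInstance)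
  have hz : ∀ x : A, (∀ N, x ∈ maximalIdeal A ^ N) → x = 0 := by
    intro x hx
    have : x ∈ (⊥ : Ideal A) := by
      rw [← hbot, Submodule.mem_iInf]
      exact hx
    exact this
  have h1 := hz _ fun N => (mem_NN.1 (h N)).1
  have h2 := hz _ fun N => (mem_NN.1 (h N)).2.1
  have h3 := hz _ fun N => (mem_NN.1 (h N)).2.2
  ext i j
  fin_cases i <;> fin_cases j
  · simp
  · simpa using h1
  · simpa using h2
  · show (ρ g : Matrix (Fin 2) (Fin 2) A) 1 1 = _
    rw [Matrix.smul_apply]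
    simp only [Matrix.one_apply_eq, smul_eq_mul, mul_one]
    exact (sub_eq_zero.1 h3).symm

variable [TopologicalSpace A] [TopologicalSpace G] [IsTopologicalGroup G] [CompactSpace G]

/-- **Frattini argument** -/
theorem gen {p : ℕ} [hp : Fact p.Prime] (hpm : (p : A) ∈ maximalIdeal A)
    {a : G → ResidueField A} (ha : ∀ g, IsNilpotent ((ρ g : Matrix (Fin 2) (Fin 2) A).map (residue A) -
      a g • (1 : Matrix (Fin 2) (Fin 2) (ResidueField A))))
    (hA : IsAdic (maximalIdeal A)) (hρ : Continuous ρ) (Ur T : Set G)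
    (hur : ∀ g ∈ Ur, ∃ c : A, (ρ g : Matrix (Fin 2) (Fin 2) A) = c • 1)
    (hT : ∀ F : G →* Multiplicative (ZMod p), IsOpen (F.ker : Set G) →
      (∀ τ ∈ Ur, F τ = 1) → (∀ t ∈ T, F t = 1) → ∀ g, F g = 1) (N : ℕ) :
    Subgroup.closure (QuotientGroup.mk' (NN ρ (maximalIdeal A ^ N)) '' T) = ⊤ := by
  have hfin : Finite (G ⧸ NN ρ (maximalIdeal A ^ N)) :=
    Subgroup.quotient_finite_of_isOpen _ (NN_open hA hρ N)
  refine Pool.Agent.X148.FM.gen_fin (isPGroup hp.out hpm ha N) (QuotientGroup.mk' _)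
    (QuotientGroup.mk'_surjective _) ?_ Ur T ?_ hT
  · rw [QuotientGroup.ker_mk']
    exact NN_open hA hρ N
  · intro g hg
    refine (QuotientGroup.eq_one_iff g).2 ?_
    obtain ⟨c, hc⟩ := hur g hg
    rw [mem_NN, hc]
    refine ⟨?_, ?_, ?_⟩ <;> simp

end

end Pool.Agent.X290.FM2
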