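import Pool.Agent.TH831.OT.Gal

/-!
# Quadratic characters of the absolute Galois group of `ℚ`
-/

set_option autoImplicit false

namespace Pool.Agent.X290.FM2

open NumberField Pool.Agent.W569.FM Pool.Agent.W215.FM
open scoped Pointwise

theorem stab_open' {F : Type} [Field F] (x : OO F) :
    IsOpen (MulAction.stabilizer (GF F) x : Set (GF F)) := by
  have h1 := stabilizer_isOpen_of_isIntegral (K := F) (x : AlgebraicClosure F)
  convert h1 using 2
  ext g
  rw [MulAction.mem_stabilizer_iff, MulAction.mem_stabilizer_iff]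
  constructor
  · intro h
    exact congrArg (fun z : OO F => (z : AlgebraicClosure F)) h
  · intro h
    exact RingOfIntegers.ext h

theorem stab_open (x : OO ℚ) : IsOpen (MulAction.stabilizer (GF ℚ) x : Set (GF ℚ)) :=
  stab_open' x

theorem cont_act : letI : TopologicalSpace (OO ℚ) := ⊥
    ContinuousSMul (GF ℚ) (OO ℚ) := by
  let _ : TopologicalSpace (OO ℚ) := ⊥
  have : DiscreteTopology (OO ℚ) := ⟨rfl⟩
  exact continuousSMul_iff_stabilizer_isOpen.2 stab_open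

theorem fixed_rat {F : Type} [Field F] [CharZero F] (x : AlgebraicClosure F)
    (h : ∀ g : GF F, g x = x) : ∃ r : F, algebraMap F (AlgebraicClosure F) r = x := by
  have h1 : x ∈ (⊥ : IntermediateField F (AlgebraicClosure F)) := by
    rw [← InfiniteGalois.fixedField_bot, IntermediateField.mem_fixedField_iff]
    intro g _
    exact h g
  rw [IntermediateField.mem_bot] at h1
  exact h1

section
variable (U : Subgroup (GF ℚ)) [hn : U.Normal] (hU : IsClosed (U : Set (GF ℚ)))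
include hU

omit hn in
/-- transitivity -/
theorem exists_dec (P Q : Ideal (OO ℚ)) (hP : P.IsPrime) (hQ : Q.IsPrime)
    (h : ∀ z : OO ℚ, (∀ g ∈ U, g • z = z) → (z ∈ P ↔ z ∈ Q)) : ∃ g ∈ U, Q = g • P := by
  have hcomm : SMulCommClass U (𝓞 (FF U)) (OO ℚ) := smulComm U
  have hinv : Algebra.IsInvariant (𝓞 (FF U)) (OO ℚ) U := isInv U
  have hcpt : CompactSpace U := isCompact_iff_compactSpace.1 hU.isCompact
  let _ : TopologicalSpace (OO ℚ) := ⊥
  have : DiscreteTopology (OO ℚ) := ⟨rfl⟩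
  have hcont : ContinuousSMul (GF ℚ) (OO ℚ) := cont_act
  have hcontU : ContinuousSMul U (OO ℚ) := inferInstance
  obtain ⟨g, hg⟩ := Algebra.IsInvariant.exists_smul_of_under_eq_of_profinite
    (A := 𝓞 (FF U)) (G := U) P Q (by
      ext a
      rw [Ideal.under_def, Ideal.mem_comap, Ideal.under_def, Ideal.mem_comap]
      refine h _ fun g hg => ?_
      exact smul_algebraMap (⟨g, hg⟩ : U) a)
  exact ⟨g.1, g.2, hg⟩

/-- lifting to an inertia element -/
theorem exists_inertia (Q : Ideal (OO ℚ)) (hQ : Q.IsPrime) (g0 : GF ℚ)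
    (h0 : ∀ z : OO ℚ, (∀ g ∈ U, g • z = z) → g0 • z - z ∈ Q)
    (h0' : ∀ z : OO ℚ, (∀ g ∈ U, g • z = z) → g0⁻¹ • z - z ∈ Q) :
    ∃ u ∈ U, ∃ v ∈ U, InInertia Q (u * (v * g0)) := by
  have hcomm : SMulCommClass U (𝓞 (FF U)) (OO ℚ) := smulComm U
  have hinv : Algebra.IsInvariant (𝓞 (FF U)) (OO ℚ) U := isInv U
  have hcpt : CompactSpace U := isCompact_iff_compactSpace.1 hU.isCompact
  let _ : TopologicalSpace (OO ℚ) := ⊥
  have : DiscreteTopology (OO ℚ) := ⟨rfl⟩
  have hcont : ContinuousSMul (GF ℚ) (OO ℚ) := cont_act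
  have hcontU : ContinuousSMul U (OO ℚ) := inferInstance
  have hQ' : (g0 • Q).IsPrime := inferInstance
  obtain ⟨v, hv, hQv⟩ := exists_dec U hU (g0 • Q) Q hQ' hQ (by
    intro z hz
    rw [Ideal.mem_pointwise_smul_iff_inv_smul_mem]
    have h1 := h0' z hz
    constructor
    · intro h2
      have := Q.sub_mem h2 h1
      rwa [sub_sub_cancel] at this
    · intro h2
      have := Q.add_mem h1 h2
      rwa [sub_add_cancel] at this)
  set g1 : GF ℚ := v * g0 with hg1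
  have hg1Q : g1 • Q = Q := by
    rw [hg1, mul_smul]
    exact hQv.symm
  have hfix : ∀ z : OO ℚ, (∀ g ∈ U, g • z = z) → g1 • z - z ∈ Q := by
    intro z hz
    have h1 : v • (g0 • z) = g0 • z := by
      have h2 : g0⁻¹ * v * g0 ∈ U := by
        have := hn.conj_mem v hv g0⁻¹
        rwa [inv_inv] at this
      have h3 := hz _ h2
      rw [mul_smul, mul_smul, inv_smul_eq_iff] at h3
      exact h3
    rw [hg1, mul_smul, h1]
    exact h0 z hz
  let P : Ideal (𝓞 (FF U)) := Q.under (𝓞 (FF U))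
  have hmap : Q = Q.map (MulSemiringAction.toRingEquiv (GF ℚ) (OO ℚ) g1 : OO ℚ →+* OO ℚ) := by
    conv_lhs => rw [← hg1Q]
    rw [Ideal.pointwise_smul_def]
    rfl
  let σ : (OO ℚ ⧸ Q) ≃ₐ[𝓞 (FF U) ⧸ P] (OO ℚ ⧸ Q) :=
    AlgEquiv.ofRingEquiv (f := Ideal.quotientEquiv Q Q
      (MulSemiringAction.toRingEquiv (GF ℚ) (OO ℚ) g1) hmap) (by
      intro a
      obtain ⟨a, rfl⟩ := Ideal.Quotient.mk_surjective a
      show Ideal.Quotient.mk Q (g1 • algebraMap (𝓞 (FF U)) (OO ℚ) a) =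
        Ideal.Quotient.mk Q (algebraMap (𝓞 (FF U)) (OO ℚ) a)
      rw [Ideal.Quotient.mk_eq_mk_iff_sub_mem]
      exact hfix _ fun g hg => smul_algebraMap (⟨g, hg⟩ : U) a)
  obtain ⟨k, hk⟩ := Ideal.Quotient.stabilizerHom_surjective_of_profinite (G := U) P Q σ
  have hk' : ∀ x : OO ℚ, g1 • x - k.1.1 • x ∈ Q := by
    intro x
    have h1 := DFunLike.congr_fun hk (Ideal.Quotient.mk Q x)
    rw [Ideal.Quotient.stabilizerHom_apply] at h1
    rw [← Ideal.Quotient.mk_eq_mk_iff_sub_mem]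
    exact h1.symm
  obtain ⟨k1, hkU, hkQ, hk'⟩ : ∃ k1 : GF ℚ, k1 ∈ U ∧ k1 • Q = Q ∧
      ∀ x : OO ℚ, g1 • x - k1 • x ∈ Q := ⟨k.1.1, k.1.2, k.2, hk'⟩
  refine ⟨k1⁻¹, U.inv_mem hkU, v, hv, fun x => ?_⟩
  have h1 := hk' x
  rw [← hkQ, Ideal.mem_pointwise_smul_iff_inv_smul_mem, smul_sub, inv_smul_smul,
    ← mul_smul] at h1
  exact h1

end

/-- an algebraic integer fixed by the Galois group is an integer -/
theorem fixed_int (x : OO ℚ) (h : ∀ g : GF ℚ, g • x = x) : ∃ n : ℤ, x = n := by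
  obtain ⟨r, hr⟩ := fixed_rat (x : AlgebraicClosure ℚ)
    (fun g => congrArg (fun z : OO ℚ => (z : AlgebraicClosure ℚ)) (h g))
  have hr' : (r : AlgebraicClosure ℚ) = x := by
    rw [← hr]
    exact (eq_ratCast _ r).symm
  have h2 : IsIntegral ℤ r := by
    have h3 : IsIntegral ℤ (algebraMap ℚ (AlgebraicClosure ℚ) r) := by
      rw [eq_ratCast, hr']; exact x.2
    exact (isIntegral_algebraMap_iff (algebraMap ℚ (AlgebraicClosure ℚ)).injective).1 h3
  obtain ⟨n, hn⟩ := IsIntegrallyClosed.isIntegral_iff.1 h2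
  refine ⟨n, RingOfIntegers.ext ?_⟩
  rw [← hr', ← hn]
  simp

theorem int_inj {a b : ℤ} (h : (a : OO ℚ) = b) : a = b := by exact_mod_cast h

theorem int_mem {P : Ideal (OO ℚ)} (hP : P.IsPrime) {l : ℕ} (hl : l.Prime) (hlP : (l : OO ℚ) ∈ P)
    {n : ℤ} (hn : (n : OO ℚ) ∈ P) : (l : ℤ) ∣ n := by
  by_contra h
  have h1 : IsCoprime (l : ℤ) n := (Nat.prime_iff_prime_int.1 hl).coprime_iff_not_dvd.2 h
  obtain ⟨a, b, hab⟩ := h1
  apply hP.ne_top
  rw [Ideal.eq_top_iff_one]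
  have h2 : (a : OO ℚ) * (l : OO ℚ) + b * n ∈ P :=
    P.add_mem (P.mul_mem_left _ hlP) (P.mul_mem_left _ hn)
  have h3 : (a : OO ℚ) * (l : OO ℚ) + b * n = 1 := by exact_mod_cast congrArg (Int.cast : ℤ → OO ℚ) hab
  rwa [h3] at h2

/-! ### square roots -/

section
variable {s : OO ℚ} {d : ℤ} (hs : s ^ 2 = d)
include hs

theorem smul_eq_or (g : GF ℚ) : g • s = s ∨ g • s = -s := by
  have h1 : (g • s) ^ 2 = s ^ 2 := by
    rw [← smul_pow', hs, Pool.Agent.TH831.OT.smul_intCast]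
  exact sq_eq_sq_iff_eq_or_eq_neg.1 h1

theorem stab_normal : (MulAction.stabilizer (GF ℚ) s).Normal := by
  refine ⟨fun n hn g => ?_⟩
  rw [MulAction.mem_stabilizer_iff] at hn ⊢
  rw [mul_smul, mul_smul]
  rcases smul_eq_or hs g⁻¹ with h | h
  · rw [h, hn]
    rw [inv_smul_eq_iff] at h
    exact h.symm
  · rw [h, smul_neg, hn, ← h, smul_inv_smul]

/-- the conjugate of an integer in the quadratic field -/
theorem form (hs0 : s ≠ 0) (hd : Squarefree d) {g0 : GF ℚ} (hg0 : g0 • s = -s) {z : OO ℚ}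
    (hz : ∀ g ∈ MulAction.stabilizer (GF ℚ) s, g • z = z) :
    ∃ T N b : ℤ, z + g0 • z = T ∧ z * (g0 • z) = N ∧ z - g0 • z = b * s ∧
      T ^ 2 - 4 * N = d * b ^ 2 := by
  have hne : s ≠ -s := by
    intro h
    apply hs0
    have h1 : (2 : OO ℚ) * s = 0 := by linear_combination h
    exact (mul_eq_zero.1 h1).resolve_left two_ne_zero
  have hfix : ∀ g : GF ℚ, g • s = s → g • z = z := fun g hg => hz g hg
  have hmov : ∀ g : GF ℚ, g • s = -s → g • z = g0 • z := by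
    intro g hg
    have h1 : (g0⁻¹ * g) • s = s := by
      rw [mul_smul, hg, inv_smul_eq_iff, hg0]
    have h2 := hfix _ h1
    rwa [mul_smul, inv_smul_eq_iff] at h2
  have hsq : ∀ g : GF ℚ, g • s = -s → g • (g0 • z) = z := by
    intro g hg
    rw [← mul_smul]
    apply hfix
    rw [mul_smul, hg0, smul_neg, hg, neg_neg]
  have hpres : ∀ g : GF ℚ, g • s = s → g • (g0 • z) = g0 • z := by
    intro g hg
    rw [← mul_smul]
    apply hmov
    rw [mul_smul, hg0, smul_neg, hg]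
  obtain ⟨T, hT⟩ := fixed_int (z + g0 • z) (fun g => by
    rw [smul_add]
    rcases smul_eq_or hs g with h | h
    · rw [hfix g h, hpres g h]
    · rw [hmov g h, hsq g h, add_comm])
  obtain ⟨N, hN⟩ := fixed_int (z * g0 • z) (fun g => by
    rw [smul_mul']
    rcases smul_eq_or hs g with h | h
    · rw [hfix g h, hpres g h]
    · rw [hmov g h, hsq g h, mul_comm])
  obtain ⟨m, hm⟩ := fixed_int ((z - g0 • z) * s) (fun g => by
    rw [smul_mul', smul_sub]
    rcases smul_eq_or hs g with h | h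
    · rw [hfix g h, hpres g h, h]
    · rw [hmov g h, hsq g h, h]; ring)
  have h1 : m ^ 2 = (T ^ 2 - 4 * N) * d := by
    apply int_inj
    push_cast
    rw [← hm, ← hT, ← hN, ← hs]
    ring
  have h2 : d ∣ m := by
    rw [← hd.dvd_pow_iff_dvd two_ne_zero]
    exact ⟨T ^ 2 - 4 * N, by rw [h1]; ring⟩
  obtain ⟨b, hb⟩ := h2
  have hd0 : d ≠ 0 := hd.ne_zero
  refine ⟨T, N, b, hT, hN, ?_, ?_⟩
  · apply mul_right_cancel₀ hs0
    rw [hm, hb]
    push_cast
    rw [← hs]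
    ring
  · rw [hb] at h1
    apply mul_right_cancel₀ hd0
    rw [← h1]
    ring

/-- ramification -/
theorem ram (hs0 : s ≠ 0) (hd : Squarefree d) {g0 : GF ℚ} (hg0 : g0 • s = -s) {l : ℕ}
    (hl : (l : ℤ) ∣ d) (Q : Ideal (OO ℚ)) (hQ : Q.IsPrime) (hlQ : (l : OO ℚ) ∈ Q) :
    ∃ τ : GF ℚ, InInertia Q τ ∧ τ • s = -s := by
  have hnorm := stab_normal hs
  have hsQ : s ∈ Q := by
    apply hQ.mem_of_pow_mem 2
    rw [hs]
    obtain ⟨c, hc⟩ := hl
    rw [hc]
    push_cast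
    exact Q.mul_mem_right _ hlQ
  have hg0' : g0⁻¹ • s = -s := by
    rw [inv_smul_eq_iff, smul_neg, hg0, neg_neg]
  have key : ∀ g : GF ℚ, g • s = -s → ∀ z : OO ℚ,
      (∀ g ∈ MulAction.stabilizer (GF ℚ) s, g • z = z) → g • z - z ∈ Q := by
    intro g hg z hz
    obtain ⟨T, N, b, -, -, h3, -⟩ := form hs hs0 hd hg hz
    have h4 : g • z - z = -(b * s) := by rw [← h3]; ring
    rw [h4]
    exact Q.neg_mem (Q.mul_mem_left _ hsQ)
  obtain ⟨u, hu, v, hv, h⟩ := exists_inertia (MulAction.stabilizer (GF ℚ) s)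
    (Subgroup.isClosed_of_isOpen _ (stab_open s)) Q hQ g0 (key g0 hg0) (key _ hg0')
  refine ⟨_, h, ?_⟩
  rw [MulAction.mem_stabilizer_iff] at hu hv
  rw [mul_smul, mul_smul, hg0, smul_neg, smul_neg, hv, hu]

/-- splitting -/
theorem split (hs0 : s ≠ 0) (hd : Squarefree d) {g0 : GF ℚ} (hg0 : g0 • s = -s)
    (P : Ideal (OO ℚ)) (hP : P.IsMaximal) (hP2 : (2 : OO ℚ) ∈ P)
    (hD : ∀ g : GF ℚ, (∀ x : OO ℚ, g • x ∈ P ↔ x ∈ P) → g • s = s) : d % 8 = 1 := by
  have hg0' : g0⁻¹ • s = -s := by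
    rw [inv_smul_eq_iff, smul_neg, hg0, neg_neg]
  have hne : s ≠ -s := by
    intro h
    apply hs0
    have h1 : (2 : OO ℚ) * s = 0 := by linear_combination h
    exact (mul_eq_zero.1 h1).resolve_left two_ne_zero
  have hex : ∃ z : OO ℚ, (∀ g ∈ MulAction.stabilizer (GF ℚ) s, g • z = z) ∧
      ¬ (z ∈ P ↔ g0⁻¹ • z ∈ P) := by
    by_contra hcon
    push Not at hcon
    have hP' : (g0 • P).IsPrime := by
      have := hP.isPrime
      infer_instance
    obtain ⟨v, hv, hvP⟩ := exists_dec (MulAction.stabilizer (GF ℚ) s)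
      (Subgroup.isClosed_of_isOpen _ (stab_open s)) (g0 • P) P hP' hP.isPrime (by
        intro z hz
        rw [Ideal.mem_pointwise_smul_iff_inv_smul_mem]
        exact (hcon z hz).symm)
    have h1 := hD (v * g0) (fun x => by
      rw [← mul_smul] at hvP
      conv_lhs => rw [hvP]
      rw [Ideal.smul_mem_pointwise_smul_iff])
    rw [MulAction.mem_stabilizer_iff] at hv
    rw [mul_smul, hg0, smul_neg, hv] at h1
    exact hne h1.symm
  obtain ⟨z, hz, hzP⟩ := hex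
  obtain ⟨T, N, b, h1, h2, -, h4⟩ := form hs hs0 hd hg0' hz
  have hl2 : ((2 : ℕ) : OO ℚ) ∈ P := by exact_mod_cast hP2
  have hN : (2 : ℤ) ∣ N := by
    have : (N : OO ℚ) ∈ P := by
      rw [← h2]
      by_cases h : z ∈ P
      · exact P.mul_mem_right _ h
      · have h5 : g0⁻¹ • z ∈ P := by
          by_contra h6
          exact hzP (by simp [h, h6])
        exact P.mul_mem_left _ h5
    exact_mod_cast int_mem hP.isPrime Nat.prime_two hl2 this
  have hT : ¬ (2 : ℤ) ∣ T := by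
    rintro ⟨c, hc⟩
    have h5 : (T : OO ℚ) ∈ P := by
      rw [hc]
      push_cast
      exact P.mul_mem_right _ hP2
    rw [← h1] at h5
    apply hzP
    constructor
    · intro h6
      exact (P.add_mem_iff_right h6).1 h5
    · intro h6
      exact (P.add_mem_iff_left h6).1 h5
  obtain ⟨n, hn⟩ := hN
  have hTo : T % 2 = 1 := by omega
  obtain ⟨t, ht⟩ : ∃ t, T = 2 * t + 1 := ⟨T / 2, by omega⟩
  have hb : ¬ (2 : ℤ) ∣ b := by
    rintro ⟨c, hc⟩
    have h5 : (2 : ℤ) ∣ 1 := ⟨2 * d * c ^ 2 - 2 * t ^ 2 - 2 * t + 4 * n, by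
      rw [hc, ht, hn] at h4
      linear_combination h4⟩
    omega
  obtain ⟨c, hc⟩ : ∃ c, b = 2 * c + 1 := ⟨b / 2, by omega⟩
  have hev : ∀ m : ℤ, ∃ k, m * (m + 1) = 2 * k := fun m => by
    obtain ⟨k, hk⟩ := Int.even_mul_succ_self m
    exact ⟨k, by rw [hk]; ring⟩
  obtain ⟨k1, hk1⟩ := hev t
  obtain ⟨k2, hk2⟩ := hev c
  have h6 : d = 1 + 8 * (k1 - n - d * k2) := by
    rw [hc, ht, hn] at h4
    linear_combination -h4 + 4 * hk1 - 4 * d * hk2
  omega

end

end Pool.Agent.X290.FM2
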